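import Pool.Agent.P.MP_0c5c88_lc.Defs

set_option autoImplicit false

/-! The four cardinal characteristics of an arbitrary family `I` of subsets of Cantor space, and
successor cardinals, written inside a structure `(M, mem)`. -/

open Pool.Agent.Lib.PosetForcing

namespace Pool.Agent.P.MP_0c5c88_lc

universe v

variable {M : Type v} (mem : M → M → Prop)

/-- `F ⊆ I` and the union of `F` is not in `I` -/
def AddI (I F : M) : Prop :=
  IsSub mem F I ∧ ∃ S, (∀ z, mem z S ↔ ∃ X, mem X F ∧ mem z X) ∧ ¬ mem S I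

/-- `X ⊆ C` is not in `I` -/
def NonI (C I X : M) : Prop := IsSub mem X C ∧ ¬ mem X I

/-- `F ⊆ I` covers `C` -/
def CovI (C I F : M) : Prop := IsSub mem F I ∧ ∀ z, mem z C → ∃ X, mem X F ∧ mem z X

/-- `F ⊆ I` is cofinal in `I` -/
def CofI (I F : M) : Prop := IsSub mem F I ∧ ∀ Y, mem Y I → ∃ X, mem X F ∧ IsSub mem Y X

/-- `|a| = |b|` -/
def EqCard (a b : M) : Prop := LeCard mem a b ∧ LeCard mem b a

/-- `|b|` is the successor cardinal of `|a|` -/
def IsNext (a b : M) : Prop := LtCard mem a b ∧ ∀ z, LtCard mem z b → LeCard mem z a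

end Pool.Agent.P.MP_0c5c88_lc
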