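import Pool.Agent.P.MP_0c5c88_lc.Main
import Pool.Agent.P.MP_0c5c88_lc.Defs2

set_option autoImplicit false

/-! Exact sizes, the Luzin family, and all families between the meager-additive and the meager
sets. -/

open Pool.Agent.Lib.PosetForcing Cardinal

namespace Pool.Agent.P.MP_0c5c88_lc.Btw

section general
variable {P : Type} [Preorder P]

instance clopen_addI (a b : Name P) :
    Clopen fun U : Gen P => AddI Mod.mem (a.val U) (b.val U) := by
  unfold AddI; infer_instance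

instance clopen_nonI (a b c : Name P) :
    Clopen fun U : Gen P => NonI Mod.mem (a.val U) (b.val U) (c.val U) := by
  unfold NonI; infer_instance

instance clopen_covI (a b c : Name P) :
    Clopen fun U : Gen P => CovI Mod.mem (a.val U) (b.val U) (c.val U) := by
  unfold CovI; infer_instance

instance clopen_cofI (a b : Name P) :
    Clopen fun U : Gen P => CofI Mod.mem (a.val U) (b.val U) := by
  unfold CofI; infer_instance

theorem transfer {Φ Ψ : Gen P → Prop} [Clopen Φ] [Clopen Ψ] (h : ∀ p, Forces p Φ → Forces p Ψ)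
    {U : Gen P} (hU : Φ U) : Ψ U := of_truth (Filter.mem_of_superset (truth hU) h)

theorem cov_mono {κ μ : Cardinal.{0}} {p : P} {a : Name P} (h : Cov κ p a) (h' : κ ≤ μ) :
    Cov μ p a := by
  obtain ⟨ι, h1, h2⟩ := h
  exact ⟨ι, h1.trans h', h2⟩

variable [OrderTop P]

theorem forces_le {κ : Cardinal.{0}} {s : P} {a b : Name P} (ha : Cov κ s a)
    (hb : ∀ t ≤ s, ∀ μ < κ, ¬ Cov μ t b) :
    Forces s fun U => LeCard Mod.mem (a.val U) (b.val U) := by
  obtain ⟨ι, hι, d, hd⟩ := ha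
  have h1 : ∀ (Z : Type) (_ : #Z < κ) (e : Z → Name P), ∃ g : Name P,
      Forces s fun U => Mod.mem (g.val U) (b.val U) ∧ ¬ Mod.mem (g.val U) ((fam e).val U) := by
    intro Z hZ e
    refine Forces.exists_name
      (Φ := fun U g => Mod.mem g (b.val U) ∧ ¬ Mod.mem g ((fam e).val U)) ?_
    by_contra h2
    obtain ⟨t, ht, h3⟩ := exists_forces_not h2
    refine hb t ht _ hZ ⟨Z, le_rfl, e, fun x t' ht' hx => ?_⟩
    exact Forces.exists_fam (((h3.mono ht').and hx).imp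
      fun U h => by_contra fun h4 => h.1 ⟨_, h.2, h4⟩)
  choose g hg using h1
  obtain ⟨e⟩ : Nonempty (ι ↪ κ.ord.ToType) := by rwa [← Cardinal.le_def, mk_ord_toType]
  have hwf : WellFounded fun μ ν => e μ < e ν := InvImage.wf e wellFounded_lt
  have hsm : ∀ ν, #{μ // e μ < e ν} < κ := fun ν => (mk_le_of_injective
    (f := fun μ => (⟨e μ.1, μ.2⟩ : Set.Iio (e ν)))
    fun μ μ' h => Subtype.ext (e.injective (congrArg Subtype.val h))).trans_lt
      ((mk_Iio_lt (e ν) (by simp)).trans_le (mk_ord_toType κ).le)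
  let dn : ι → Name P := hwf.fix fun ν ih => g {μ // e μ < e ν} (hsm ν) fun μ => ih μ.1 μ.2
  have hdn : ∀ ν, dn ν = g {μ // e μ < e ν} (hsm ν) fun μ => dn μ.1 := fun ν => hwf.fix_eq _ ν
  have hlt : ∀ μ ν, e μ < e ν → ∀ t ≤ s, ¬ Forces t fun U => (dn μ).val U = (dn ν).val U := by
    intro μ ν hμ t ht h2
    refine Forces.not_false (p := t) fun U hU => ?_
    have h3 := (fapp (hg _ (hsm ν) fun μ => dn μ.1) ht hU).2
    rw [← hdn ν, ← h2 U hU] at h3
    exact h3 (mem_fam (fun μ : {μ // e μ < e ν} => dn μ.1) ⟨μ, hμ⟩ U)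
  refine forces_leCard d dn hd
    (fun ν => hdn ν ▸ (hg _ (hsm ν) _).imp fun U h => h.1) fun μ ν hne t ht h => ?_
  rcases lt_trichotomy (e μ) (e ν) with h1 | h1 | h1
  · exact hlt μ ν h1 t ht h
  · exact hne (e.injective h1)
  · exact hlt ν μ h1 t ht (h.imp fun _ h => h.symm)

theorem forces_ctbl {s : P} {a : Name P} (ha : Cov ℵ₀ s a) :
    Forces s fun U => LeCard Mod.mem (a.val U) (wN.val U) := by
  obtain ⟨ι, hι, d, hd⟩ := ha
  obtain ⟨e, he⟩ := (mk_le_aleph0_iff.1 hι).exists_injective_nat'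
  exact forces_leCard d (fun i => natName (e i)) hd
    (fun _ => Forces.of_forall (natName_mem_omega _) s) fun i j hne q _ h => hne (he h.natName_inj)

theorem isNext {κ : Cardinal.{0}} {x y : Name P} (x1 : ∀ p, Cov κ p x)
    (x2 : ∀ (p : P) (z : Name P), Cov κ p z → Forces p fun U => LeCard Mod.mem (z.val U) (x.val U))
    (y1 : ∀ p, Cov (Order.succ κ) p y) (y2 : ∀ p, ¬ Cov κ p y) (U : Gen P) :
    IsNext Mod.mem (x.val U) (y.val U) := by
  refine ⟨ltCard_of fun h => ?_, fun z hz => ?_⟩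
  · obtain ⟨p, hp⟩ := Ultrafilter.nonempty_of_mem
      (truth (Φ := fun U : Gen P => LeCard Mod.mem (y.val U) (x.val U)) h)
    exact y2 p ((x1 p).of_le hp)
  · obtain ⟨z, rfl⟩ := z.exists_name
    refine transfer (Φ := fun U : Gen P => ¬ LeCard Mod.mem (y.val U) (z.val U))
      (Ψ := fun U : Gen P => LeCard Mod.mem (z.val U) (x.val U))
      (fun p hp => Forces.of_dn fun q hq => ?_) hz.2
    by_cases h : ∀ t ≤ q, ∀ μ < Order.succ κ, ¬ Cov μ t z
    · exact (Forces.not_false (((hp.mono hq).and (forces_le (y1 q) h)).imp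
        fun _ h => h.1 h.2)).elim
    · push Not at h
      obtain ⟨t, ht, μ, h1, h2⟩ := h
      exact ⟨t, ht, x2 t z (cov_mono h2 (Order.le_of_lt_succ h1))⟩

theorem isNext' {κ : Cardinal.{0}} {x y : Name P} (x1 : ∀ p, Cov (Order.succ κ) p x)
    (x2 : ∀ p, ¬ Cov κ p x) (y1 : ∀ p, Cov (Order.succ (Order.succ κ)) p y)
    (y2 : ∀ p, ¬ Cov (Order.succ κ) p y) (U : Gen P) : IsNext Mod.mem (x.val U) (y.val U) :=
  isNext x1 (fun _ _ h => forces_le h fun t _ _ h1 h2 =>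
    x2 t (cov_mono h2 (Order.le_of_lt_succ h1))) y1 y2 U

end general

theorem not_cov_meager {p : PP} {F : Name PP} (h : Cov k2 p F) :
    ¬ Forces p fun U => (∀ X, Mod.mem X (F.val U) → Meager Mod.mem (wN.val U) (cN.val U) X) ∧
      ∀ z, Mod.mem z (cN.val U) → ∃ X, Mod.mem X (F.val U) ∧ Mod.mem z X := by
  intro h'
  obtain ⟨ι, h1, d, h2⟩ := h
  choose N N1 N2 using fun i => meager_code (d i)
  choose ν n1 n2 using fun i => exists_code (W := Works (N i)) (works_dense (N1 i))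
  choose r β r1 b1 h3 using fun i => exists_within (n2 i)
  obtain ⟨r', -, r2, r3⟩ := Rnd.bound (Set.range r) (mk_range_le.trans h1)
  let x : Co := ⟨r', ⊥, Classical.arbitrary Z, ∅⟩
  obtain ⟨X, hX⟩ := Forces.exists_name (h'.imp fun U h => h.2 _ (rname_mem x U))
  obtain ⟨q, g1, i, g2⟩ := h2 X p le_rfl (hX.imp fun U h => h.1)
  obtain ⟨q', g3, n, g4⟩ := N2 i (rname x) q fun U hU => by
    beta_reduce
    rw [← fapp g2 le_rfl hU]
    exact ⟨(fapp h' g1 hU).1 _ (fapp hX g1 hU).1, (fapp hX g1 hU).2⟩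
  obtain ⟨s, g5, g, ⟨b, u⟩, g6, g7⟩ := (n1 i).2 q' (max n (q'.1 x).t)
  obtain ⟨s', k1, k2, -, k3⟩ := glue (r0 := r') q'.2 (leR.mono g5 le_top le_rfl)
  obtain ⟨t, k4, k5, -⟩ := exists_pext k1.refl (Set.finite_singleton x) (fun _ => b) fun _ => u
  obtain ⟨hg, k6⟩ := (n1 i).1 g _ _ g6
  have k7 : leR ⊤ ⊤ t g := le_of_within k4.refl
    ((k4.mono le_top le_rfl).trans (k2.trans (g7.mono le_top le_rfl)))
    ((h3 i).mono (r3 _ ⟨i, rfl⟩ (r1 i)).le le_top g _ _ g6)
  obtain ⟨U, hU⟩ := exists_gen (P := PP) ⟨t, k4.refl⟩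
  have k8 : t x = pext (q'.1 x) b u := by rw [k5 x rfl, k3 x le_rfl]
  exact fapp k6 k7 hU _ (rname_mem x U) (forces_agr (d := x) r2 row_bot_lt
    (by rw [k8]; exact le_max_right _ _)
    (fun m m1 _ => by rw [k8]; exact mem_pext ((le_max_right _ _).trans m1)) U hU)
    n (Nat.lt_succ_of_le (le_max_left _ _)) (fapp g4 (k4.trans k1) hU)

theorem not_cov_fam {A : Type} [Uncountable A] {ζ : A → Z} (hζ : Function.Injective ζ)
    {κ : Cardinal.{0}} (hκ : κ < #A) {p : PP} {F : Name PP} (h : Cov κ p F)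
    (h' : ∀ z, Forces p fun U => ∃ X, Mod.mem X (F.val U) ∧
      Meager Mod.mem (wN.val U) (cN.val U) X ∧ IsSub Mod.mem ((XN (ζ z)).val U) X) : False := by
  obtain ⟨ι, h1, d, h2⟩ := h
  have : ∀ z : A, ∃ i, ∃ q : PP, Forces q fun U => Meager Mod.mem (wN.val U) (cN.val U)
      ((d i).val U) ∧ IsSub Mod.mem ((XN (ζ z)).val U) ((d i).val U) := by
    intro z
    obtain ⟨X, hX⟩ := Forces.exists_name (h' z)
    obtain ⟨q, g1, i, g2⟩ := h2 X p le_rfl (hX.imp fun U h => h.1)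
    refine ⟨i, q, fun U hU => ?_⟩
    beta_reduce
    rw [← fapp g2 le_rfl hU]
    exact (fapp hX g1 hU).2
  choose f q hq using this
  obtain ⟨i, hi⟩ := exists_uncountable_fiber f (h1.trans_lt hκ)
  exact big (I := f ⁻¹' {i}) (fun h => not_countable h.to_subtype) hζ (d i) q
    fun z hz => (show f z = i from hz) ▸ hq z

instance : Uncountable Z := by
  rw [← aleph0_lt_mk_iff, mk_Z]
  exact k3_inf.trans_lt k3_lt

instance : Uncountable W1 := by
  rw [← aleph0_lt_mk_iff, mk_W1]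
  exact aleph0_lt_aleph_one

/-- the Luzin family -/
noncomputable def L0 : Name PP := fam XN

theorem not_cov_self {A : Type} [Uncountable A] {ζ : A → Z} (hζ : Function.Injective ζ)
    {κ : Cardinal.{0}} (hκ : κ < #A) (p : PP) : ¬ Cov κ p (fam fun z => XN (ζ z)) := fun h =>
  not_cov_fam hζ hκ h fun z => Forces.of_forall (fun U =>
    ⟨_, mem_fam (fun z => XN (ζ z)) z U, meager_of_mAdd (mAdd_XN _ U), fun _ h => h⟩) p

theorem not_meager_union (U : Gen PP) :
    ¬ Meager Mod.mem (wN.val U) (cN.val U) ((unionName A0).val U) := by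
  intro h
  obtain ⟨p, hp⟩ := Ultrafilter.nonempty_of_mem (truth
    (Φ := fun U : Gen PP => Meager Mod.mem (wN.val U) (cN.val U) ((unionName A0).val U)) h)
  exact big Set.not_countable_univ exists_emb.some.injective (unionName A0) (fun _ => p)
    fun ξ _ => Forces.imp hp fun U h => ⟨h, fun x hx => (mem_unionName _ U x).2
      ⟨_, mem_fam (fun ξ : W1 => XN (exists_emb.some ξ)) ξ U, hx⟩⟩

theorem luzin (U : Gen PP) (A : Mod U) (hA : Meager Mod.mem (wN.val U) (cN.val U) A) (Y : Mod U)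
    (h1 : IsSub Mod.mem Y (L0.val U)) (h2 : ∀ X, Mod.mem X Y → IsSub Mod.mem X A) :
    LeCard Mod.mem Y (wN.val U) := by
  obtain ⟨A, rfl⟩ := A.exists_name
  obtain ⟨Y, rfl⟩ := Y.exists_name
  refine transfer (Φ := fun U : Gen PP => Meager Mod.mem (wN.val U) (cN.val U) (A.val U) ∧
    IsSub Mod.mem (Y.val U) (L0.val U) ∧ ∀ X, Mod.mem X (Y.val U) → IsSub Mod.mem X (A.val U))
    (Ψ := fun U : Gen PP => LeCard Mod.mem (Y.val U) (wN.val U)) (fun p hp => ?_) ⟨hA, h1, h2⟩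
  have hI : {z : Z | ∃ q ≤ p, Forces q fun U => Mod.mem ((XN z).val U) (Y.val U)}.Countable := by
    by_contra hI
    have : ∀ z : Z, ∃ q : PP, (∃ q ≤ p, Forces q fun U => Mod.mem ((XN z).val U) (Y.val U)) →
        q ≤ p ∧ Forces q fun U => Mod.mem ((XN z).val U) (Y.val U) := fun z => by
      by_cases h : ∃ q ≤ p, Forces q fun U => Mod.mem ((XN z).val U) (Y.val U)
      · exact h.imp fun _ h _ => h
      · exact ⟨p, fun h' => absurd h' h⟩
    choose c hc using this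
    exact big hI Function.injective_id A c fun z hz => ((hp.mono (hc z hz).1).and (hc z hz).2).imp
      fun U h => ⟨h.1.1, h.1.2.2 _ h.2⟩
  refine forces_ctbl ⟨_, le_aleph0_iff_set_countable.2 hI, fun z => XN z.1, fun x q hq hx => ?_⟩
  obtain ⟨r, hr, z, hz⟩ := Forces.exists_fam (((hp.mono hq).and hx).imp fun U h => h.1.2.1 _ h.2)
  exact ⟨r, hr, ⟨z, r, hr.trans hq, ((hx.mono hr).and hz).imp fun U h => h.2 ▸ h.1⟩, hz⟩

theorem not_cov_union (p : PP) : ¬ Cov ℵ₁ p (unionName A0) := fun h =>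
  Forces.not_false ((mAdd_of_cov h (Forces.of_forall (fun U => (nonW_union U).1) p)).imp
    fun U h => not_mAdd_union U h)

theorem cov_cN (p : PP) : Cov k4 p cN := by
  let f : PP × ULift.{0} ℕ → C × ℕ × V := fun x => (x.1.1, x.2.down, (0, ∅))
  have hf : Function.Injective f := fun x y h => by
    simp only [f, Prod.mk.injEq, and_true] at h
    exact Prod.ext (Subtype.ext h.1) (ULift.ext _ _ h.2)
  choose l hl using fun S : {S : Set (PP × ULift.{0} ℕ) // S.Countable} => nm_surj (S.2.image f)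
  refine ⟨_, (mk_le_of_injective (f := l) fun S T h => Subtype.ext (hf.image_injective ?_)).trans
    mk_Lam.le, fun S => niceReal S.1, fun x q _ hx => ?_⟩
  · rw [← hl, ← hl, h]
  · obtain ⟨S, h1, h2⟩ := (ccc_LP ⊤ ⊤).exists_niceReal x
    exact ⟨q, le_rfl, ⟨S, h1⟩, hx.imp fun U h => h2 U (mem_cN.1 h)⟩

theorem rname_ne {z z' : Z} (h : z ≠ z') (q : PP) :
    ¬ Forces q fun U => (rname (kc z)).val U = (rname (kc z')).val U := by
  classical
  intro hq
  have hne : kc z' ≠ kc z := fun e => h (congrArg Co.z e).symm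
  obtain ⟨n, hn⟩ := exists_bound q.1
  obtain ⟨c, c1, c2, -⟩ := exists_pext q.2 (Set.toFinite {kc z, kc z'}) (fun _ => n + 1)
    fun d => if d = kc z then {n} else ∅
  have r1 : Rd (c (kc z)) n true := by
    rw [c2 _ (by simp)]
    exact ⟨by simp, by simp [mem_pext (hn _)]⟩
  have r2 : Rd (c (kc z')) n false := by
    rw [c2 _ (by simp)]
    exact ⟨by simp, by simp [mem_pext (hn _), hne]⟩
  obtain ⟨U, hU⟩ := exists_gen (P := PP) ⟨c, c1.refl⟩
  have g1 := forces_rd (d := kc z) (s := ⟨c, c1.refl⟩) rnd_bot_lt row_bot_lt r1 U hU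
  have g2 := forces_rd (d := kc z') (s := ⟨c, c1.refl⟩) rnd_bot_lt row_bot_lt r2 U hU
  beta_reduce at g1 g2
  rw [fapp hq c1 hU, g2] at g1
  simp at g1

theorem L0_le (p : PP) : Forces p fun U => LeCard Mod.mem (L0.val U) (cN.val U) :=
  forces_leCard XN (fun z => rname (kc z)) (fun _ _ _ h => h.exists_fam)
    (fun _ => Forces.of_forall (rname_mem _) p) fun _ _ h q _ => rname_ne h q

theorem not_cov_L0 {μ : Cardinal.{0}} (h : μ < k4) (p : PP) : ¬ Cov μ p L0 :=
  not_cov_self Function.injective_id (mk_Z ▸ h) p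

theorem lt_of_cov {U : Gen PP} {a b : Name PP} {Φ : Gen PP → Prop} [Clopen Φ] (hU : Φ U)
    {κ : Cardinal.{0}} (h1 : ∀ p, Forces p Φ → Cov κ p a) (h2 : ∀ p, Forces p Φ → ¬ Cov κ p b) :
    LtCard Mod.mem (a.val U) (b.val U) := ltCard_of fun h => by
  obtain ⟨p, hp⟩ := Ultrafilter.nonempty_of_mem
    (truth (Φ := fun U : Gen PP => Φ U ∧ LeCard Mod.mem (b.val U) (a.val U)) ⟨hU, h⟩)
  exact h2 p (Forces.imp hp fun _ h => h.1)
    ((h1 p (Forces.imp hp fun _ h => h.1)).of_le (Forces.imp hp fun _ h => h.2))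

theorem not_cov_C0 (p : PP) : ¬ Cov k2 p C0 := fun h => not_covW h (Forces.of_forall covW_C0 p)

theorem not_cov_cN (p : PP) : ¬ Cov k3 p cN := fun h => not_cov_L0 k3_lt p (h.of_le (L0_le p))

theorem sizes (U : Gen PP) : IsNext Mod.mem (wN.val U) (A0.val U) ∧
    IsNext Mod.mem (A0.val U) ((unionName A0).val U) ∧
    IsNext Mod.mem ((unionName A0).val U) (C0.val U) ∧ LtCard Mod.mem (C0.val U) (cN.val U) ∧
    EqCard Mod.mem (L0.val U) (cN.val U) := by
  have a1 : ∀ p, Cov (Order.succ ℵ₀) p A0 := fun p => cov_fam (succ_aleph0 ▸ mk_W1.le) _ p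
  have a2 : ∀ p, ¬ Cov ℵ₀ p A0 :=
    not_cov_self exists_emb.some.injective (mk_W1 ▸ aleph0_lt_aleph_one)
  exact ⟨isNext (fun p => cov_fam (by simp) _ p) (fun _ _ => forces_ctbl) a1 a2 U,
    isNext' a1 a2 (succ_aleph0 ▸ cov_union) (succ_aleph0 ▸ not_cov_union) U,
    isNext' cov_union not_cov_union cov_C0 not_cov_C0 U,
    lt_of_cov (Φ := fun _ => True) trivial (fun p _ => cov_C0 p) fun p _ => not_cov_cN p,
    of_forces_all (fun p => ⟨p, le_rfl, L0_le p⟩) U, of_forces_all (fun p => ⟨p, le_rfl,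
      forces_le (cov_cN p) fun t _ _ h => not_cov_L0 h t⟩) U⟩

theorem between (U : Gen PP) (I : Mod U)
    (h1 : ∀ X, MAdd Mod.mem (wN.val U) (cN.val U) X → Mod.mem X I)
    (h2 : ∀ X, Mod.mem X I → Meager Mod.mem (wN.val U) (cN.val U) X) : ∃ a n c f : Mod U,
    IsLeastSize Mod.mem (AddI Mod.mem I) a ∧ IsLeastSize Mod.mem (NonI Mod.mem (cN.val U) I) n ∧
    IsLeastSize Mod.mem (CovI Mod.mem (cN.val U) I) c ∧ IsLeastSize Mod.mem (CofI Mod.mem I) f ∧
    LtCard Mod.mem a n ∧ LtCard Mod.mem n c ∧ LtCard Mod.mem c f ∧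
    LeCard Mod.mem a (A0.val U) ∧ EqCard Mod.mem n ((unionName A0).val U) ∧
    EqCard Mod.mem c (C0.val U) ∧ LeCard Mod.mem (cN.val U) f := by
  obtain ⟨I, rfl⟩ := I.exists_name
  have hu : ¬ Mod.mem ((unionName A0).val U) (I.val U) := fun h => not_meager_union U (h2 _ h)
  have w1 : AddI Mod.mem (I.val U) (A0.val U) :=
    ⟨fun X hX => h1 X (mAdd_A0 U X hX), _, mem_unionName A0 U, hu⟩
  have w2 : NonI Mod.mem (cN.val U) (I.val U) ((unionName A0).val U) := ⟨(nonW_union U).1, hu⟩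
  have w3 : CovI Mod.mem (cN.val U) (I.val U) (C0.val U) :=
    ⟨fun X hX => h1 X ((covW_C0 U).1 X hX), (covW_C0 U).2⟩
  obtain ⟨a, ha⟩ := exists_least (fun U => AddI Mod.mem (I.val U)) U ⟨_, w1⟩
  obtain ⟨n, hn⟩ := exists_least (fun U => NonI Mod.mem (cN.val U) (I.val U)) U ⟨_, w2⟩
  obtain ⟨c, hc⟩ := exists_least (fun U => CovI Mod.mem (cN.val U) (I.val U)) U ⟨_, w3⟩
  obtain ⟨f, hf⟩ := exists_least (fun U => CofI Mod.mem (I.val U)) U
    ⟨_, fun _ h => h, fun Y hY => ⟨Y, hY, fun _ h => h⟩⟩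
  obtain ⟨a, rfl⟩ := a.exists_name
  obtain ⟨n, rfl⟩ := n.exists_name
  obtain ⟨c, rfl⟩ := c.exists_name
  obtain ⟨f, rfl⟩ := f.exists_name
  have b1 := ha.2 _ w1
  have b2 := hn.2 _ w2
  have b3 := hc.2 _ w3
  have d2 : LeCard Mod.mem ((unionName A0).val U) (n.val U) :=
    transfer (Φ := fun U : Gen PP => (∀ X, MAdd Mod.mem (wN.val U) (cN.val U) X →
      Mod.mem X (I.val U)) ∧ NonI Mod.mem (cN.val U) (I.val U) (n.val U))
      (Ψ := fun U : Gen PP => LeCard Mod.mem ((unionName A0).val U) (n.val U))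
      (fun p hp => forces_le (cov_union p) fun t ht μ g1 g2 => Forces.not_false
        (((hp.mono ht).and (mAdd_of_cov (cov_mono g2 (Order.le_of_lt_succ g1))
          ((hp.mono ht).imp fun _ h => h.2.1))).imp fun _ h => h.1.2.2 (h.1.1 _ h.2))) ⟨h1, hn.1⟩
  have d3 : LeCard Mod.mem (C0.val U) (c.val U) :=
    transfer (Φ := fun U : Gen PP => (∀ X, Mod.mem X (I.val U) →
      Meager Mod.mem (wN.val U) (cN.val U) X) ∧ CovI Mod.mem (cN.val U) (I.val U) (c.val U))
      (Ψ := fun U : Gen PP => LeCard Mod.mem (C0.val U) (c.val U))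
      (fun p hp => forces_le (cov_C0 p) fun t ht μ g1 g2 =>
        not_cov_meager (cov_mono g2 (Order.le_of_lt_succ g1)) ((hp.mono ht).imp
          fun _ h => ⟨fun X hX => h.1 X (h.2.1 X hX), h.2.2⟩)) ⟨h2, hc.1⟩
  have d4 : LeCard Mod.mem (cN.val U) (f.val U) :=
    transfer (Φ := fun U : Gen PP => (∀ X, MAdd Mod.mem (wN.val U) (cN.val U) X →
      Mod.mem X (I.val U)) ∧ (∀ X, Mod.mem X (I.val U) →
      Meager Mod.mem (wN.val U) (cN.val U) X) ∧ CofI Mod.mem (I.val U) (f.val U))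
      (Ψ := fun U : Gen PP => LeCard Mod.mem (cN.val U) (f.val U))
      (fun p hp => forces_le (cov_cN p) fun t ht μ g1 g2 =>
        not_cov_fam Function.injective_id (mk_Z ▸ g1) g2 fun z => (hp.mono ht).imp fun U h => by
          obtain ⟨X, x1, x2⟩ := h.2.2.2 _ (h.1 _ (mAdd_XN z U))
          exact ⟨X, x1, h.2.1 X (h.2.2.1 X x1), x2⟩) ⟨h1, h2, hf.1⟩
  have key : ∀ {κ : Cardinal.{0}} {x y u v : Name PP}, (∀ p, Cov κ p u) → (∀ p, ¬ Cov κ p v) →
      LeCard Mod.mem (x.val U) (u.val U) → LeCard Mod.mem (v.val U) (y.val U) →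
      LtCard Mod.mem (x.val U) (y.val U) := fun {κ x y u v} g1 g2 g3 g4 =>
    lt_of_cov (Φ := fun U : Gen PP => LeCard Mod.mem (x.val U) (u.val U) ∧
      LeCard Mod.mem (v.val U) (y.val U)) ⟨g3, g4⟩ (fun p hp => (g1 p).of_le (hp.imp fun _ h => h.1))
      fun p hp h => g2 p (h.of_le (hp.imp fun _ h => h.2))
  exact ⟨_, _, _, _, ha, hn, hc, hf, key (cov_fam mk_W1.le _) not_cov_union b1 d2,
    key cov_union not_cov_C0 b2 d3, key cov_C0 not_cov_cN b3 d4, b1, ⟨b2, d2⟩, ⟨b3, d3⟩, d4⟩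

end Pool.Agent.P.MP_0c5c88_lc.Btw
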