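import Pool.Agent.P.MP_0c5c88_lc.Lim1

set_option autoImplicit false

/-! Ultrafilter limits, part 2: the recursion along rounds and the limit lemma. -/

namespace Pool.Agent.P.MP_0c5c88_lc

/-- uniform sequences of conditions -/
structure Nice (p : ℕ → C) (Rt : Finset Co) (l0 h : ℕ) : Prop where
  val : ∀ i, leR ⊤ ⊤ (p i) (p i)
  out : ∀ d, d ∉ Rt → ∃ k, ∀ i, k ≤ i → p i d = 0 ∧ d ∉ Men (p i)
  stem : ∀ d ∈ Rt, ∀ i, (p i d).t = (p 0 d).t ∧ (p i d).y = (p 0 d).y ∧ (p i d).E = (p 0 d).E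
  card : ∀ d ∈ Rt, ∀ i, (p i d).F0.card ≤ h
  pos : 0 < l0
  f1 : ∀ i (d : Co), ⊥ < d.rnd → (p i d).F1.Nonempty → l0 ≤ (p i d).t ∧ (d ∉ Rt → i ≤ (p i d).t)
  men : ∀ i, ∀ x ∈ Men (p i), (p i x).t ≤ l0

variable {p : ℕ → C} {Rt : Finset Co} {l0 h : ℕ}

theorem Nice.out' (hN : Nice p Rt l0 h) {s : Set Co} (hs : s.Finite) :
    ∃ k, ∀ i, k ≤ i → ∀ d ∈ s, d ∉ Rt → p i d = 0 ∧ d ∉ Men (p i) := by
  induction s, hs using Set.Finite.induction_on with
  | empty => exact ⟨0, fun _ _ _ h => h.elim⟩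
  | @insert a s _ _ ih =>
    obtain ⟨k, hk⟩ := ih
    by_cases ha : a ∈ Rt
    · refine ⟨k, fun i hi d hd h1 => ?_⟩
      rcases hd with rfl | hd
      · exact absurd ha h1
      · exact hk i hi d hd h1
    · obtain ⟨k', hk'⟩ := hN.out a ha
      refine ⟨max k k', fun i hi d hd h1 => ?_⟩
      rcases hd with rfl | hd
      · exact hk' i ((le_max_right _ _).trans hi)
      · exact hk i ((le_max_left _ _).trans hi) d hd h1

/-- the first round after the bottom one -/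
noncomputable def one : Rnd := (wellFounded_lt (α := Rnd)).min {r | ⊥ < r} ⟨⊤, rnd_bot_lt⟩

theorem bot_lt_one : ⊥ < one := (wellFounded_lt (α := Rnd)).min_mem {r | ⊥ < r} _

theorem one_le {r : Rnd} (h : ⊥ < r) : one ≤ r :=
  not_lt.1 ((wellFounded_lt (α := Rnd)).not_lt_min {r | ⊥ < r} h)

theorem eq_bot_of_lt_one {r : Rnd} (h : r < one) : r = ⊥ :=
  by_contra fun h' => absurd (one_le (bot_lt_iff_ne_bot.2 h')) h.not_ge

theorem Val.E_eq {l : C → C → Prop} {d : Co} {a : Y} (h : Val l d a) (hd : d.rnd < one) :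
    a.E = ∅ := Finset.eq_empty_of_forall_notMem fun B hB =>
  absurd (one_le (h.blk B hB).1) hd.not_ge

theorem leR_one {β : Row} {x y : C} (h : ∀ d : Co, d.rnd < one → d.row < β →
    Val (lo d) d (x d) ∧ Val (lo d) d (y d) ∧ Soft ⊥ (x d) (y d)) : leR one β x y :=
  leR_of_soft fun d d1 d2 => by
    obtain ⟨h1, h2, h3⟩ := h d d1 d2
    exact ⟨h1, ⟨h3.t, h3.y, h3.E, h3.F0, fun α a1 _ => absurd (one_le (h2.f1 α a1).2) d1.not_ge⟩,
      by rw [h1.E_eq d1]; exact Finset.empty_subset _⟩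

/-- merging a condition with a member of the sequence at one coordinate -/
noncomputable def merge (Rt : Finset Co) (c p : C) (d : Co) : Y := by
  classical
  exact if d ∉ Rt ∧ p d ≠ 0 then p d else addF (c d) (p d)

theorem merge_cases (Rt : Finset Co) (c p : C) (d : Co) :
    (d ∉ Rt ∧ p d ≠ 0 ∧ merge Rt c p d = p d) ∨
      ((d ∈ Rt ∨ p d = 0) ∧ merge Rt c p d = addF (c d) (p d)) := by
  by_cases h : d ∉ Rt ∧ p d ≠ 0
  · exact Or.inl ⟨h.1, h.2, if_pos h⟩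
  · exact Or.inr ⟨by tauto, if_neg h⟩

theorem merge_zero {c p : C} {d : Co} (h1 : c d = 0) (h2 : p d = 0) : merge Rt c p d = 0 := by
  rcases merge_cases Rt c p d with h | h
  · exact absurd h2 h.2.1
  · rw [h.2, h1, h2, addF_zero]

theorem Val.merge {l : C → C → Prop} {c p : C} {d : Co} (h1 : Val l d (c d)) (h2 : Val l d (p d)) :
    Val l d (merge Rt c p d) := by
  rcases merge_cases Rt c p d with h | h
  · rwa [h.2.2]
  · rw [h.2]; exact h1.addF h2

theorem state_one (hN : Nice p Rt l0 h) : State p Rt l0 one := by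
  classical
  obtain ⟨q, hq⟩ := exists_cond
    (fun d => if d ∈ Rt then (⟨(p 0 d).t, (p 0 d).y, ∅, ∅, ∅⟩ : Y) else 0) Rt.finite_toSet
    fun d hd => if_neg hd
  have hqv : ∀ l d, Val l d (q d) := fun l d => by
    rw [hq]
    split_ifs
    · exact ⟨fun _ h => absurd h (Finset.notMem_empty _), fun _ h => absurd h (Finset.notMem_empty _),
        fun _ h => absurd h (Finset.notMem_empty _)⟩
    · exact Val.zero _ _
  refine build (q := q) bot_lt_one (leR_of_soft fun d _ _ => ⟨hqv _ _, Soft.refl _ _, subset_rfl⟩)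
    (M := fun β _ A => Low (cone (leR one β) q) A ∧ ∃ k, ∀ d i, k ≤ i → A d i) (fun β => ?_) ?_
  · refine ⟨fun _ _ _ _ h => h, ?_, fun _ k _ => ⟨fun _ _ _ _ h => h, k, fun _ _ h => h⟩, ?_,
      fun _ _ h => h.1⟩
    · rintro e A B ⟨h1, k, h2⟩ ⟨g1, k', g2⟩
      exact ⟨h1.and g1, max k k', fun d i hi => ⟨h2 d i ((le_max_left _ _).trans hi),
        g2 d i ((le_max_right _ _).trans hi)⟩⟩
    · rintro e A he ⟨-, k, h2⟩
      exact ⟨e, he, k, h2 e k le_rfl⟩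
  rintro β hβ D hD - hP c hc B Φ G ⟨-, k, hB⟩ hΦ hG hDG
  have hle := (pre_lt Rt hβ).le
  generalize pre Rt β = α at *
  obtain ⟨n, hn⟩ := exists_bound c
  obtain ⟨k', hk'⟩ := hN.out' (c.hasFiniteSupport.union hΦ)
  have hcα := hc.mono le_rfl hle
  obtain ⟨e, he, i, ⟨⟨l, g1⟩, g2⟩, g3⟩ := hD.proper c _ ⟨hcα.refl, hcα⟩
    (hD.inter _ _ _ (hD.inter _ _ _ (hDG n) (hP c hcα)) (hD.cof c (max k k') ⟨hcα.refl, hcα⟩))
  have hout := hk' i ((le_max_right _ _).trans g3)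
  obtain ⟨c', hc'⟩ := exists_cond (fun d => if d.row < α then e d else
      if d ∈ Φ ∪ Men (p i) then pext (merge Rt c (p i) d) l ∅ else merge Rt c (p i) d)
    ((hΦ.union (finite_Men (p i))).union (e.hasFiniteSupport.union
      (c.hasFiniteSupport.union (p i).hasFiniteSupport))) fun d hd => by
      rw [Set.mem_union, not_or] at hd
      rw [if_neg hd.1]
      simp only [Set.mem_union, Function.mem_support, not_or, not_not] at hd
      rw [merge_zero hd.2.2.1 hd.2.2.2, hd.2.1, ite_self]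
  have k1 : ∀ d, d.row < α → c' d = e d := fun d hd => by rw [hc', if_pos hd]
  have k2 : ∀ d, α ≤ d.row → d ∈ Φ ∪ Men (p i) → c' d = pext (merge Rt c (p i) d) l ∅ :=
    fun d hd h' => by rw [hc', if_neg hd.not_gt, if_pos h']
  have hpv : ∀ d : Co, d.rnd < one → d.row < β → Val (lo d) d (p i d) := fun d d1 d2 =>
    (hN.val i).val (d1.trans_le le_top) (d2.trans_le le_top)
  have k3 : ∀ d : Co, d.rnd < one → d.row < β → α ≤ d.row →
      Val (lo d) d (c' d) ∧ Soft ⊥ (c' d) (merge Rt c (p i) d) := fun d d1 d2 d3 => by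
    have := Val.merge (Rt := Rt) (hc.val d1 d2) (hpv d d1 d2)
    rw [hc', if_neg d3.not_gt]
    split_ifs
    · exact ⟨this.pext _ _, soft_pext _ _ _ _⟩
    · exact ⟨this, Soft.refl _ _⟩
  have H2 : leR one β c' c := leR_one fun d d1 d2 => by
    rcases lt_or_ge d.row α with hd | hd
    · rw [k1 d hd]
      exact ⟨he.1.val d1 hd, hc.val d1 d2, (he.1.soft d1 hd).mono bot_le⟩
    · refine ⟨(k3 d d1 d2 hd).1, hc.val d1 d2, (k3 d d1 d2 hd).2.trans ?_⟩
      rcases merge_cases Rt c (p i) d with h1 | h1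
      · have : c d = 0 := by_contra fun h2 => h1.2.1 (hout d (Or.inl h2) h1.1).1
        rw [this]
        exact Soft.zero _ _
      · rw [h1.2]
        exact soft_addF _ _ _
  have H4 : leR one β c' (p i) := leR_one fun d d1 d2 => by
    rcases lt_or_ge d.row α with hd | hd
    · rw [k1 d hd]
      exact ⟨he.1.val d1 hd, hpv d d1 d2, (g2.soft d1 hd).mono bot_le⟩
    · refine ⟨(k3 d d1 d2 hd).1, hpv d d1 d2, (k3 d d1 d2 hd).2.trans ?_⟩
      rcases merge_cases Rt c (p i) d with h1 | ⟨h1 | h1, h2⟩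
      · rw [h1.2.2]
        exact Soft.refl _ _
      · have h3 := hc.soft d1 d2
        rw [hq, if_pos h1] at h3
        obtain ⟨s1, s2, -⟩ := hN.stem d h1 i
        rw [h2]
        refine soft_addF' _ (s1.le.trans h3.t) (fun m hm => ?_) ?_
        · rw [s2]; exact h3.y m (hm.trans_le s1.le)
        · rw [(hpv d d1 d2).E_eq d1]; exact Finset.empty_subset _
      · rw [h1]
        exact Soft.zero _ _
  have H1 : leR one α c' e := he.1.refl.congr_left fun d _ hd => k1 d hd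
  refine ⟨c', H2, i, hB _ _ ((le_max_left _ _).trans g3), H4, n, l,
    hG _ _ _ _ _ ⟨H1, H1.trans he.2⟩ g1, fun x x1 _ x3 _ => ?_, fun x x1 _ x3 _ => ?_⟩
  · rw [k2 x x3 (Or.inl x1)]
    refine ⟨le_max_right _ _, fun m m1 _ => ?_⟩
    have : (merge Rt c (p i) x).t ≤ n := by
      rcases merge_cases Rt c (p i) x with h1 | h1
      · exact absurd (hout x (Or.inr x1) h1.1).1 h1.2.1
      · rw [h1.2]; exact hn x
    rw [mem_pext (this.trans m1)]
    exact Finset.notMem_empty _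
  · rw [k2 x x3 (Or.inr x1.1)]
    refine ⟨le_max_right _ _, fun m m1 _ => ?_⟩
    have : (merge Rt c (p i) x).t ≤ l0 := by
      rcases merge_cases Rt c (p i) x with h1 | h1
      · rw [h1.2.2]; exact hN.men i x x1.1
      · have : c x = 0 := by_contra fun h2 => (hout x (Or.inl h2) x1.2).2 x1.1
        rw [h1.2, addF_t, this]
        exact Nat.zero_le _
    rw [mem_pext (this.trans m1)]
    exact Finset.notMem_empty _

theorem state_step (hN : Nice p Rt l0 h) {r r0 : Rnd} (h0 : ⊥ < r0) (h1 : r0 < r)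
    (h2 : ∀ d ∈ Rt, d.rnd < r → d.rnd ≤ r0) (hS : State p Rt l0 r0) : State p Rt l0 r := by
  classical
  obtain ⟨q0, D0, hq0, hD0, -, hI0⟩ := hS
  have hpv : ∀ i (d : Co), d.rnd < r → d.row < ⊤ → Val (lo d) d (p i d) := fun i d d1 d2 =>
    (hN.val i).val (d1.trans_le le_top) d2
  have hF : ∀ d : Co, ∃ F : Finset Lam, d ∈ Rt → d.rnd = r0 → d.row < ⊤ →
      (∀ ν ∈ F, Tot (lo d) ν) ∧ ∀ c a b y, lo d c q0 →
        (∀ ν ∈ F, Match (lo d) c d.lam (fun n v => Dec (lo d) c ν n (bv v)) a b y) →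
        D0 d.row c fun e i => ∀ ν ∈ (p i d).F0,
          Match (lo d) e d.lam (fun n v => Dec (lo d) e ν n (bv v)) a b y := by
    intro d
    by_cases hd : d ∈ Rt ∧ d.rnd = r0 ∧ d.row < ⊤
    · obtain ⟨d1, rfl, d3⟩ := hd
      obtain ⟨F, g1, g2⟩ := exists_limF (hD0 d.row) (F := fun i => (p i d).F0) (hN.card d d1)
        fun i => (hpv i d h1 d3).tot
      exact ⟨F, fun _ _ _ => ⟨g1, fun c a b y => g2 c d.lam a b y⟩⟩
    · exact ⟨∅, fun a b c => absurd ⟨a, b, c⟩ hd⟩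
  choose F hF using hF
  let a0 : Co → Y := fun d => ⟨(p 0 d).t, (p 0 d).y, (p 0 d).E, F d,
    (Rt.image Co.row).filter fun α => d.row ≤ α ∧ xc d.z α ∈ Rt⟩
  obtain ⟨q, hq⟩ := exists_cond
    (fun d => if d.rnd < r0 then q0 d else if d ∈ Rt ∧ d.rnd = r0 then a0 d else 0)
    (q0.hasFiniteSupport.union Rt.finite_toSet) fun d hd => by
      simp only [Set.mem_union, Function.mem_support, not_or, not_not, Finset.mem_coe] at hd
      simp [hd]
  have hq1 : ∀ d, d.rnd < r0 → q d = q0 d := fun d hd => by rw [hq, if_pos hd]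
  have hq2 : ∀ d ∈ Rt, d.rnd = r0 → q d = a0 d := fun d d1 d2 => by
    rw [hq, if_neg d2.not_lt, if_pos ⟨d1, d2⟩]
  have hqv : leR r ⊤ q q := leR_of_soft fun d d1 d2 => ⟨by
    rw [hq]
    split_ifs with g1 g2
    · exact hq0.val g1 d2
    · exact ⟨(hF d g2.1 g2.2 d2).1, fun α hα => ⟨(Finset.mem_filter.1 hα).2.1, g2.2 ▸ h0⟩,
        (hpv 0 d d1 d2).blk⟩
    · exact Val.zero _ _, Soft.refl _ _, subset_rfl⟩
  have hdown : ∀ {β e}, leR r β e q → leR r0 β e q0 := fun he =>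
    (he.mono h1.le le_rfl).congr_right fun d hd _ => (hq1 d hd).symm
  have hcone : ∀ {β e e'}, cone (leR r β) q e e' → cone (leR r0 β) q0 e e' := fun he =>
    ⟨he.1.mono h1.le le_rfl, hdown he.2⟩
  refine build (h0.trans h1) hqv (M := D0) (fun β => ?_) ?_
  · refine ⟨fun e e' A g1 => (hD0 β).mono e e' A (hcone g1), (hD0 β).inter,
      fun e k he => (hD0 β).cof e k (hcone he), fun e A he g1 => ?_,
      fun e A g1 a b i g2 => (hD0 β).low e A g1 a b i (hcone g2)⟩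
    obtain ⟨e', g2, i, g3⟩ := (hD0 β).proper e A (hcone he) g1
    obtain ⟨g, g4, g5, -, -⟩ := glue he.1 g2.1
    exact ⟨g, ⟨g4, g4.trans he.2⟩, i, (hD0 β).low e A g1 _ _ i ⟨g5, g5.trans g2.2⟩ g3⟩
  intro β hβ D hD hMD hP c hc B Φ G hB hΦ hG hDG
  have hlt := pre_lt Rt hβ
  have hle := hlt.le
  have hαt : pre Rt β < ⊤ := (pre_lt Rt hβ).trans_le le_top
  have hroot : ∀ d ∈ Rt, d.row < β → d.row ≤ pre Rt β := fun d => le_pre Rt
  have hI := hI0 β hβ
  generalize pre Rt β = α at *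
  have hrel := (isRel_leR r0 α).cone q0
  obtain ⟨N0, hN0⟩ := exists_bound c
  obtain ⟨k', hk'⟩ := hN.out' c.hasFiniteSupport
  have hcα := hc.mono le_rfl hle
  have hc0 := hdown hcα
  choose cn cn1 cn2 cn3 using fun n => exists_pext hc.refl
    (c.hasFiniteSupport.inter_of_left {d | r0 ≤ d.rnd}) (fun _ => n + 1) fun _ => ∅
  let G0 : ℕ → ℕ → C → ℕ → Prop := fun n i e0 l => n ≤ i ∧ N0 ≤ l ∧ ∃ e l', leR r α e (cn n) ∧
    leR r α e (p i) ∧ G n i e l' ∧ l' ≤ l ∧ (∀ d, (e d).t ≤ l) ∧ leR r0 α e0 e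
  have hG0 : LowG (cone (leR r0 α) q0) G0 := by
    rintro n i e e' l g0 ⟨g1, g2, e1, l', g3, g4, g5, g6, g7, g8⟩
    exact ⟨g1, g2, e1, l', g3, g4, g5, g6, g7, g0.1.trans g8⟩
  have hDG0 : ∀ n, D0 α c fun e i => ∃ l, G0 n i e l := fun n => by
    refine (hD0 α).ultra _ _ ⟨hc0.refl, hc0⟩ (fun e e' i g0 ⟨l, g1⟩ => ⟨l, hG0 _ _ _ _ _ g0 g1⟩)
      fun e1 g1 g2 => ?_
    obtain ⟨e2, g3, g4, -, -⟩ := glue (r0 := r0) ((cn1 n).refl.mono le_rfl hle)
      (g1.1.congr_right fun d hd _ => cn3 n d fun h => absurd h.2 hd.not_ge)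
    have g5 := g3.trans ((cn1 n).mono le_rfl hle)
    have g6 := g5.trans hcα
    obtain ⟨e, g7, i, ⟨⟨⟨g8, l', g9⟩, g10⟩, g11⟩⟩ := hD.proper e2 _ ⟨g6.refl, g6⟩
      (hD.inter _ _ _ (hD.inter _ _ _ (hD.inter _ _ _
        (hMD e2 _ g6 ((hD0 α).mono _ _ _ ⟨g4, hdown g6⟩ g2)) (hD.mono _ _ _ ⟨g5, g6⟩ (hDG n)))
        (hP e2 g6)) (hD.cof e2 n ⟨g6.refl, g6⟩))
    obtain ⟨N, hN'⟩ := exists_bound e
    exact g8 e (hcone ⟨g7.1.refl, g7.2⟩) ⟨max N0 (max l' N), g11, le_max_left _ _, e, l',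
      g7.1.trans g3, g10, g9, by omega, fun d => (hN' d).trans (by omega),
      g7.1.refl.mono h1.le le_rfl⟩
  let s : Set (Co × ℕ × ℕ) := {x | x.1 ∈ Rt ∧ x.1.rnd = r0 ∧ x.1.row = α ∧ x.2 ∈ (c x.1).E ∧
    x.2 ∉ (q x.1).E}
  have hs : s.Finite := (Rt.finite_toSet.biUnion fun d _ =>
    ((c d).E.finite_toSet.image fun B => (d, B))).subset fun x hx =>
      Set.mem_biUnion hx.1 ⟨x.2, hx.2.2.2.1, rfl⟩
  have hL := (hD0 α).finite hrel ⟨hc0.refl, hc0⟩ hs (A := fun x e i => ∀ ν ∈ (p i x.1).F0,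
      Match (lo x.1) e x.1.lam (fun n v => Dec (lo x.1) e ν n (bv v)) x.2.1 x.2.2 (c x.1).y) (by
    rintro ⟨d, B⟩ ⟨x1, x2, x3, x4, x5⟩
    dsimp only at x1 x2 x3 x4 x5 ⊢
    have x6 : d.row < β := x3.trans_lt hlt
    have x7 := ((hc.ext (x2.trans_lt h1) x6).2 B x4 x5).m0
    rw [hq2 d x1 x2] at x7
    subst x2 x3
    exact (hF d x1 rfl hαt).2 c _ _ _ hc0 x7)
  have hLlow := (hD0 α).low _ _ hL
  obtain ⟨d0, g0, i, ⟨⟨g1, n, l, ⟨⟨g2, g3, e, l', g4, g5, g6, g7, g8, g9⟩, gL⟩, gZ, gZ'⟩, gB⟩, gi⟩ :=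
    (hD0 β).proper c _ ⟨(hdown hc).refl, hdown hc⟩ ((hD0 β).inter _ _ _ ((hD0 β).inter _ _ _
      (hI (Φ ∪ (Men c ∪ Rt)) (hΦ.union ((finite_Men c).union Rt.finite_toSet))
        (fun n i e l => G0 n i e l ∧ ∀ x ∈ s, ∀ ν ∈ (p i x.1).F0, Match (lo x.1) e x.1.lam
          (fun n v => Dec (lo x.1) e ν n (bv v)) x.2.1 x.2.2 (c x.1).y)
        (fun n i e e' l g1 g2 => ⟨hG0 n i e e' l g1 g2.1, hLlow e e' i g1 g2.2⟩) c (hdown hc)
        fun n => (hD0 α).sup hrel ⟨hc0.refl, hc0⟩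
          (fun e e' i g1 ⟨l, g2⟩ => ⟨l, hG0 n i e e' l g1 g2.1, hLlow e e' i g1 g2.2⟩)
          ((hD0 α).inter _ _ _ (hDG0 n) hL) fun _ _ _ ⟨⟨l, g1⟩, g2⟩ => ⟨l, g1, g2⟩) hB)
      ((hD0 β).cof c k' ⟨(hdown hc).refl, hdown hc⟩))
  have hout := hk' i gi
  obtain ⟨c', hc'⟩ := exists_cond (fun d => if d.rnd < r0 then d0 d else if d.row < α then
      addF (addF (e d) (c d)) (p i d) else merge Rt c (p i) d)
    (d0.hasFiniteSupport.union (e.hasFiniteSupport.union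
      (c.hasFiniteSupport.union (p i).hasFiniteSupport))) fun d hd => by
      simp only [Set.mem_union, Function.mem_support, not_or, not_not] at hd
      rw [merge_zero hd.2.2.1 hd.2.2.2, hd.1, hd.2.1, hd.2.2.1, hd.2.2.2, addF_zero, addF_zero,
        ite_self, ite_self]
  have k1 : ∀ d, d.rnd < r0 → c' d = d0 d := fun d hd => by rw [hc', if_pos hd]
  have k2 : ∀ d, r0 ≤ d.rnd → d.row < α → c' d = addF (addF (e d) (c d)) (p i d) :=
    fun d d1 d2 => by rw [hc', if_neg d1.not_gt, if_pos d2]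
  have k3 : ∀ d, r0 ≤ d.rnd → α ≤ d.row → c' d = merge Rt c (p i) d :=
    fun d d1 d2 => by rw [hc', if_neg d1.not_gt, if_neg d2.not_gt]
  have H0 : leR r0 β c' d0 := g0.1.refl.congr_left fun d hd _ => k1 d hd
  have hZ := gZ.mono H0 h0 subset_rfl le_rfl
  have hZ' := gZ'.mono H0 h0 subset_rfl le_rfl
  have H1 : leR r α c' e := leR_iff.2 fun d d1 d2 => by
    rcases lt_or_ge d.rnd r0 with hd | hd
    · exact leR_iff.1 ((H0.mono le_rfl hle).trans g9) d hd d2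
    · rw [k2 d hd d2]
      exact ⟨((g4.val d1 d2).addF (hcα.val d1 d2)).addF (hpv i d d1 (d2.trans hαt)),
        Ext.of_soft ((soft_addF _ _ _).trans (soft_addF _ _ _)) subset_rfl⟩
  have hend : ∀ d : Co, d.rnd < r → r0 ≤ d.rnd → d.row < α → ∀ B ∈ (c' d).E, B.2 ≤ l :=
    fun d d1 d2 d3 B hB => by
      have := ((H1.val d1 d3).blk B hB).2
      rw [k2 d d2 d3] at this
      exact this.trans (g8 d)
  have H2 : leR r β c' c := leR_iff.2 fun d d1 d2 => by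
    rcases lt_or_ge d.rnd r0 with hd | hd
    · exact leR_iff.1 (H0.trans g0.1) d hd d2
    rcases lt_or_ge d.row α with hd' | hd'
    · refine ⟨H1.val d1 hd', (((H1.trans g4).trans ((cn1 n).mono le_rfl hle)).ext d1 hd').upgrade
        fun a a1 a2 a3 => ⟨by rw [k2 d hd hd']; simp [mem_addF1, a1], fun B b1 b2 => ?_⟩⟩
      have e1 := cn2 n d ⟨fun h => by simp [h] at a1, hd⟩
      have hnew := ((H1.trans g4).ext d1 hd').2 B b1 (by rwa [e1])
      have e2 : n + 1 ≤ (cn n d).t := by rw [e1]; exact le_max_right _ _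
      exact hZ.match (Or.inr (Or.inl ⟨d, a, a1, rfl⟩)) a2 a3 (hnew.good (by omega))
        (by have := hnew.start; omega) (hend d d1 hd hd' B b1)
    · rw [k3 d hd hd']
      refine ⟨(hc.val d1 d2).merge (hpv i d d1 (d2.trans_le le_top)), ?_⟩
      rcases merge_cases Rt c (p i) d with m1 | m1
      · have : c d = 0 := by_contra fun h2 => m1.2.1 (hout d h2 m1.1).1
        rw [this]
        exact Ext.zero _ _ _ _ _
      · rw [m1.2]
        exact Ext.of_soft (soft_addF _ _ _) subset_rfl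
  have H3 : leR r β c' q := H2.trans hc
  have H4 : leR r β c' (p i) := leR_iff.2 fun d d1 d2 => by
    rcases lt_or_ge d.rnd r0 with hd | hd
    · exact leR_iff.1 (H0.trans g1) d hd d2
    refine ⟨H2.val d1 d2, ?_⟩
    have hm1 : ∀ B ∈ (c' d).E, B ∉ (p i d).E → B.2 ≤ l → (p i d).t ≤ B.1 →
        (0 < (p i d).t → Good (lo d) c' d B (c' d).y) → ∀ a ∈ (p i d).F1, α ≤ a → a < β →
        Match (lo d) c' d.lam (Rd (c' (xc d.z a))) B.1 B.2 (c' d).y := by
      intro B b1 b2 b3 b4 b5 a a1 a2 a3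
      obtain ⟨f1, f2⟩ := hN.f1 i d (h0.trans_le hd) ⟨a, a1⟩
      have b6 := b5 (hN.pos.trans_le f1)
      by_cases hx : xc d.z a ∈ Rt
      · by_cases hR : d ∈ Rt
        · have e1 := hq2 d hR (le_antisymm (h2 d hR d1) hd)
          refine ((H3.ext d1 d2).2 B b1 ?_).m1 a ?_ a3
          · rw [e1]
            exact (hN.stem d hR i).2.2 ▸ b2
          · rw [e1]
            exact Finset.mem_filter.2 ⟨Finset.mem_image_of_mem Co.row hx,
              ((hpv i d d1 (d2.trans_le le_top)).f1 a a1).1, hx⟩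
        · exact hZ.match (Or.inr (Or.inr hx)) a2 a3 b6 (g2.trans ((f2 hR).trans b4)) b3
      · exact hZ'.match ⟨⟨d, a, a1, rfl⟩, hx⟩ a2 a3 b6 (f1.trans b4) b3
    rcases lt_or_ge d.row α with hd' | hd'
    · have e1 := (H1.trans g5).ext d1 hd'
      exact e1.upgrade fun a a1 a2 a3 => ⟨by rw [k2 d hd hd']; simp [mem_addF1, a1],
        fun B b1 b2 => hm1 B b1 b2 (hend d d1 hd hd' B b1) (e1.2 B b1 b2).start
          (e1.2 B b1 b2).good a a1 a2 a3⟩
    have e0 := k3 d hd hd'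
    rcases merge_cases Rt c (p i) d with m1 | ⟨hR | m1, m2⟩
    · rw [e0, m1.2.2]
      exact Ext.refl
    · have e1 := le_antisymm (h2 d hR d1) hd
      have e2 := le_antisymm (hroot d hR d2) hd'
      have e3 := H3.ext d1 d2
      obtain ⟨s1, s2, s3⟩ := hN.stem d hR i
      have e4 : (q d).t = (p i d).t := by rw [hq2 d hR e1, s1]
      have e5 : (q d).y = (p i d).y := by rw [hq2 d hR e1, s2]
      have e6 : (q d).E = (p i d).E := by rw [hq2 d hR e1, s3]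
      rw [m2] at e0
      refine ⟨?_, fun B b1 b2 => ?_⟩
      · have := e3.1
        rw [e0] at this ⊢
        exact soft_addF' _ (e4 ▸ this.t) (e4 ▸ e5 ▸ this.y) (e6 ▸ this.E)
      · have hnew := e3.2 B b1 (e6 ▸ b2)
        have b3 : B ∈ (c d).E := by rwa [e0] at b1
        refine ⟨e4 ▸ hnew.start, e4 ▸ hnew.good, fun ν hν => ?_, fun a a1 a3 => hm1 B b1 b2
          (((hc.val d1 d2).blk B b3).2.trans ((hN0 d).trans g3)) (e4 ▸ hnew.start) (e4 ▸ hnew.good)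
          a a1 (e2 ▸ ((hpv i d d1 (d2.trans_le le_top)).f1 a a1).1) a3⟩
        have hlo : lo d c' d0 := H0.mono e1.le d2.le
        exact (gL (d, B) ⟨hR, e1, e2, b3, e6 ▸ b2⟩ ν hν).transfer (isRel_lo d) hlo
          (fun _ _ h => h.mono (isRel_lo d) hlo) fun _ _ => by rw [e0]; rfl
    · rw [m1]
      exact Ext.zero _ _ _ _ _
  exact ⟨c', H2, i, (hD0 β).low _ _ hB _ _ i ⟨H0, hdown H3⟩ gB, H4, n, l',
    hG _ _ _ _ _ ⟨H1, H3.mono le_rfl hle⟩ g6, hZ.mono H2.refl (h0.trans h1) Set.subset_union_left g7,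
    hZ'.mono H2.refl (h0.trans h1) subset_rfl g7⟩

theorem state_all (hN : Nice p Rt l0 h) (r : Rnd) : ⊥ < r → State p Rt l0 r := by
  classical
  induction r using WellFoundedLT.induction with
  | ind r ih =>
    intro hr
    rcases (one_le hr).eq_or_lt with rfl | h1
    · exact state_one hN
    · have h2 : max one ((Rt.filter fun d => d.rnd < r).sup Co.rnd) < r :=
        max_lt h1 ((Finset.sup_lt_iff hr).2 fun d hd => (Finset.mem_filter.1 hd).2)
      have h0 := bot_lt_one.trans_le (le_max_left one ((Rt.filter fun d => d.rnd < r).sup Co.rnd))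
      exact state_step hN h0 h2 (fun d d1 d2 => (Finset.le_sup (f := Co.rnd)
        (Finset.mem_filter.2 ⟨d1, d2⟩)).trans (le_max_right _ _)) (ih _ h2 h0)

/-- the limit lemma -/
theorem exists_limit (hN : Nice p Rt l0 h) : ∃ q, leR ⊤ ⊤ q q ∧ ∀ c, leR ⊤ ⊤ c q → ∀ k,
    ∃ i, k ≤ i ∧ ∃ e, leR ⊤ ⊤ e c ∧ leR ⊤ ⊤ e (p i) := by
  obtain ⟨q, D, h1, h2, h3, -⟩ := state_all hN ⊤ rnd_bot_lt
  refine ⟨q, h1, fun c hc k => ?_⟩
  obtain ⟨e, g1, i, g2, g3⟩ := (h2 ⊤).proper c _ ⟨hc.refl, hc⟩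
    ((h2 ⊤).inter _ _ _ (h3 ⊤ c hc) ((h2 ⊤).cof c k ⟨hc.refl, hc⟩))
  exact ⟨i, g3, e, g1.1, g2⟩

end Pool.Agent.P.MP_0c5c88_lc
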