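import Pool.Agent.P.MP_0c5c88_lc.Sem2
import Pool.Agent.P.MP_0c5c88_lc.Lim2

set_option autoImplicit false

/-! No meager set contains uncountably many of the generic meager-additive sets. -/

open Pool.Agent.Lib.PosetForcing Cardinal

namespace Pool.Agent.P.MP_0c5c88_lc

theorem big {ι : Type} {I : Set ι} (hI : ¬ I.Countable) {ζ : ι → Z} (hζ : Function.Injective ζ)
    (A : Name PP) (c : ι → PP) (hc : ∀ i ∈ I, Forces (c i) fun U =>
      Meager Mod.mem (wN.val U) (cN.val U) (A.val U) ∧ IsSub Mod.mem ((XN (ζ i)).val U) (A.val U)) :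
    False := by
  classical
  obtain ⟨N, N1, N2⟩ := meager_code A
  obtain ⟨ν, n1, n2⟩ := exists_code (W := Works N) (works_dense N1)
  obtain ⟨r0, α, -, w2, w3⟩ := exists_within n2
  have w4 := w3.mono le_top le_rfl
  have h1 : ∀ i, ∃ (e : PP) (n l : ℕ), i ∈ I →
      (Forces e fun U => Mod.mem ((rname (xc (ζ i) α)).val U) ((N n).val U)) ∧ n ≤ l ∧ 0 < l ∧
      (∀ d, (e.1 d).t ≤ l) ∧ ∀ d, (e.1 d).F1.Nonempty → l ≤ (e.1 d).t := by
    intro i
    by_cases hi : i ∈ I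
    · obtain ⟨r, -, n, h2⟩ := N2 (rname (xc (ζ i) α)) (c i) ((hc i hi).imp fun U h => ⟨h.1, h.2 _
        (mem_fam (fun α : {α : Row // α < ⊤} => rname (xc (ζ i) α.1)) ⟨α, w2⟩ U)⟩)
      obtain ⟨l, g1, g2, e, g3, g4, g5⟩ := normalize r.2 n
      exact ⟨⟨e, g3.refl⟩, n, l, fun _ => ⟨h2.mono g3, g1, g2, g4, g5⟩⟩
    · exact ⟨⊤, 0, 0, fun h => absurd h hi⟩
  choose e n l he using h1
  obtain ⟨D, I1, i1, i2, -, i4⟩ := exists_delta
    (fun i => insert (kc (ζ i)) ((e i).1.support ∪ (finite_Men (e i).1).toFinset)) hI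
  obtain ⟨⟨l0, y⟩, hy⟩ := exists_fiber (fun i => (l i, fun d : D =>
    (((e i).1 d).t, ((e i).1 d).y, ((e i).1 d).E, ((e i).1 d).F0.card))) i2
  have hE : {i | kc (ζ i) ∈ D}.Finite := D.finite_toSet.preimage
    (f := fun i => kc (ζ i)) fun a _ b _ h => hζ (congrArg Co.z h)
  have hinf := (Set.not_infinite.not_right.2 fun h =>
    not_countable_diff hy hE.countable (Set.Finite.countable h) :)
  let f : ℕ → ι := fun k => (hinf.natEmbedding _ k).1
  have f0 : ∀ k k', k ≠ k' → f k ≠ f k' := fun k k' h h' =>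
    h ((hinf.natEmbedding _).injective (Subtype.ext h'))
  have f1 : ∀ k, f k ∈ I1 := fun k => (hinf.natEmbedding _ k).2.1.1
  have f2 : ∀ k, l (f k) = l0 := fun k => congrArg Prod.fst (hinf.natEmbedding _ k).2.1.2
  have f3 : ∀ k, ∀ d (hd : d ∈ D), (((e (f k)).1 d).t, ((e (f k)).1 d).y, ((e (f k)).1 d).E,
      ((e (f k)).1 d).F0.card) = y ⟨d, hd⟩ :=
    fun k d hd => congrFun (congrArg Prod.snd (hinf.natEmbedding _ k).2.1.2) ⟨d, hd⟩
  have f4 : ∀ k, kc (ζ (f k)) ∉ D := fun k => (hinf.natEmbedding _ k).2.2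
  have f5 := fun k => he (f k) (i1 (f1 k))
  simp only [f2] at f5
  choose p p1 p2 p3 using fun k => exists_pext (e (f k)).2
    (s := insert (kc (ζ (f k))) {d | ((e (f k)).1 d).F1.Nonempty ∧ ⊥ < d.rnd ∧ d ∉ D})
    (((finite_F1 (e (f k)).1).subset fun _ h => h.1).insert _) (fun _ => l0 + k) fun _ => ∅
  have q1 : ∀ k d, (p k d).F1 = ((e (f k)).1 d).F1 ∧ ((e (f k)).1 d).t ≤ (p k d).t := fun k d => by
    by_cases h : d ∈ insert (kc (ζ (f k))) {d | ((e (f k)).1 d).F1.Nonempty ∧ ⊥ < d.rnd ∧ d ∉ D}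
    · rw [p2 k d h]; exact ⟨rfl, le_max_left _ _⟩
    · rw [p3 k d h]; exact ⟨rfl, le_rfl⟩
  have q2 : ∀ k, Men (p k) = Men (e (f k)).1 := fun k => by simp only [Men, (q1 k _).1]
  have q3 : ∀ k, ∀ d ∈ D, p k d = (e (f k)).1 d := fun k d hd => p3 k d (by
    rintro (rfl | h)
    · exact f4 k hd
    · exact h.2.2 hd)
  have q4 : ∀ k z a, p k (xc z a) = (e (f k)).1 (xc z a) := fun k z a => p3 k _ (by
    rintro (h | h)
    · exact xc_ne_kc _ _ _ h
    · exact lt_irrefl _ h.2.1)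
  have q5 : ∀ k, ∀ x ∈ Men (p k), (p k x).t ≤ l0 := by
    rintro k _ ⟨d, a, -, rfl⟩
    rw [q4]
    exact (f5 k).2.2.2.1 _
  have q6 : ∀ k d, (p k d).F1.Nonempty → l0 ≤ (p k d).t := fun k d h =>
    ((f5 k).2.2.2.2 d ((q1 k d).1 ▸ h)).trans (q1 k d).2
  have hN : Nice p D l0 (Finset.univ.sup fun d : D => (y d).2.2.2) := by
    refine ⟨fun k => (p1 k).refl, fun d hd => ?_, fun d hd k => ?_, fun d hd k => ?_,
      (f5 0).2.2.1, fun k d d1 d2 => ⟨q6 k d d2, fun d3 => ?_⟩, q5⟩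
    · have key : ∀ k, d ∉ insert (kc (ζ (f k))) ((e (f k)).1.support ∪
          (finite_Men (e (f k)).1).toFinset) → p k d = 0 ∧ d ∉ Men (p k) := fun k h => by
        simp only [Finset.mem_insert, Finset.mem_union, Finsupp.mem_support_iff,
          Set.Finite.mem_toFinset, not_or, not_not] at h
        refine ⟨(p3 k d ?_).trans h.2.1, q2 k ▸ h.2.2⟩
        rintro (h' | h')
        · exact h.1 h'
        · simpa [h.2.1] using h'.1
      by_cases h : ∃ k, d ∈ insert (kc (ζ (f k))) ((e (f k)).1.support ∪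
          (finite_Men (e (f k)).1).toFinset)
      · obtain ⟨k, hk⟩ := h
        exact ⟨k + 1, fun k' hk' => key k' fun h' =>
          hd (i4 _ (f1 k) _ (f1 k') (f0 k k' (by omega)) d hk h')⟩
      · exact ⟨0, fun k _ => key k fun h' => h ⟨k, h'⟩⟩
    · have := (f3 k d hd).trans (f3 0 d hd).symm
      simp only [Prod.mk.injEq] at this
      rw [q3 k d hd, q3 0 d hd]
      exact ⟨this.1, this.2.1, this.2.2.1⟩
    · rw [q3 k d hd]
      exact (congrArg (fun x => x.2.2.2) (f3 k d hd)).le.trans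
        (Finset.le_sup (f := fun d : D => (y d).2.2.2) (Finset.mem_univ _))
    · rw [p2 k d (Or.inr ⟨(q1 k d).1 ▸ d2, d1, d3⟩), pext_t]
      omega
  obtain ⟨q, hq, hq'⟩ := exists_limit hN
  obtain ⟨c', g1, g, ⟨m', u⟩, g2, g3⟩ := n1.2 ⟨q, hq⟩ l0
  obtain ⟨k, g4, e', g5, g6⟩ := hq' c'.1 g1 m'
  obtain ⟨g', k1, k2, k3, k4⟩ := row_amal (z0 := ζ (f k)) (a0 := α) (m0 := l0) (m' := m') u
    (p1 k).refl (g6.mono le_rfl (le_top (a := α))) (f5 0).2.2.1 (q5 k)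
    (by rw [q4]; exact (f5 k).2.2.2.1 _) (q6 k) le_rfl le_rfl fun m m1 m2 m3 => by
      have s1 := g6.soft (d := kc (ζ (f k))) rnd_bot_lt row_bot_lt
      rw [p2 k _ (Set.mem_insert _ _)] at s1
      have := (s1.y m (by rw [pext_t]; omega)).1 (m3.2.2 rfl)
      rw [mem_pext (((f5 k).2.2.2.1 _).trans m1)] at this
      exact Finset.notMem_empty _ this
  obtain ⟨hg, k5⟩ := n1.1 g l0 _ g2
  have k6 : leR ⊤ ⊤ g' g := le_of_within k1.refl (k2.trans ((g5.trans g3).mono le_rfl le_top))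
    (w4 g _ _ g2)
  obtain ⟨U, hU⟩ := exists_gen (P := PP) ⟨g', k1.refl⟩
  exact fapp k5 k6 hU _ (rname_mem _ U) (forces_agr (d := xc (ζ (f k)) α) rnd_bot_lt w2 k3 k4 U hU)
    (n (f k)) (Nat.lt_succ_of_le (f5 k).2.1) (fapp (f5 k).1 (k1.trans (p1 k)) hU)

end Pool.Agent.P.MP_0c5c88_lc
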