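import Mathlib

set_option autoImplicit false

/-! Names for ultrafilters on `ω` over a transitive relation of conditions. A name for a subset of
`ω` is a downward closed relation `A e i` (the condition `e` puts `i` in the set). -/

namespace Pool.Agent.P.MP_0c5c88_lc

variable {C : Type} (le : C → C → Prop)

/-- transitive relation in which anything below something is below itself -/
structure IsRel : Prop where
  trans : ∀ {a b c}, le a b → le b c → le a c
  refl : ∀ {a b}, le a b → le a a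

/-- downward closed -/
def Low (A : C → ℕ → Prop) : Prop := ∀ e e' i, le e' e → A e i → A e' i

/-- the name of the complement -/
def perp (A : C → ℕ → Prop) : C → ℕ → Prop := fun e i => ∀ e', le e' e → ¬ A e' i

/-- a name for a proper filter containing the cofinite sets -/
structure Pre (D : C → (C → ℕ → Prop) → Prop) : Prop where
  mono : ∀ e e' A, le e' e → D e A → D e' A
  inter : ∀ e A B, D e A → D e B → D e fun d i => A d i ∧ B d i
  cof : ∀ e k, le e e → D e fun _ i => k ≤ i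
  proper : ∀ e A, le e e → D e A → ∃ e', le e' e ∧ ∃ i, A e' i
  low : ∀ e A, D e A → Low le A

/-- a name for a nonprincipal ultrafilter -/
structure IsUF (D : C → (C → ℕ → Prop) → Prop) : Prop extends Pre le D where
  ultra : ∀ e A, le e e → Low le A → (∀ e', le e' e → ¬ D e' (perp le A)) → D e A

variable {le}

theorem low_perp (h : IsRel le) (A : C → ℕ → Prop) : Low le (perp le A) :=
  fun _ _ _ h1 h2 e' h3 => h2 e' (h.trans h3 h1)

theorem Low.and {A B : C → ℕ → Prop} (hA : Low le A) (hB : Low le B) :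
    Low le fun d i => A d i ∧ B d i := fun e e' i h h' => ⟨hA e e' i h h'.1, hB e e' i h h'.2⟩

theorem exists_uf (h : IsRel le) {S : C → (C → ℕ → Prop) → Prop} (hS : Pre le S) :
    ∃ D, IsUF le D ∧ ∀ e A, S e A → D e A := by
  obtain ⟨m, hm0, hm⟩ := zorn_subset_nonempty
    {T : Set (C × (C → ℕ → Prop)) | Pre le fun e A => (e, A) ∈ T} (by
      intro c hc hchain ⟨T0, hT0⟩
      refine ⟨⋃₀ c, ⟨?_, ?_, ?_, ?_, ?_⟩, fun s hs => Set.subset_sUnion_of_mem hs⟩
      · rintro e e' A h1 ⟨T, hT, h2⟩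
        exact ⟨T, hT, (hc hT).mono e e' A h1 h2⟩
      · rintro e A B ⟨T, hT, h1⟩ ⟨T', hT', h2⟩
        rcases hchain.total hT hT' with h3 | h3
        · exact ⟨T', hT', (hc hT').inter e A B (h3 h1) h2⟩
        · exact ⟨T, hT, (hc hT).inter e A B h1 (h3 h2)⟩
      · exact fun e k he => ⟨T0, hT0, (hc hT0).cof e k he⟩
      · rintro e A he ⟨T, hT, h1⟩
        exact (hc hT).proper e A he h1
      · rintro e A ⟨T, hT, h1⟩
        exact (hc hT).low e A h1) {x | S x.1 x.2} hS
  have hP : Pre le fun e A => (e, A) ∈ m := hm.prop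
  refine ⟨fun e A => (e, A) ∈ m, ⟨hP, fun e A he hA hn => ?_⟩, fun e A h1 => hm0 h1⟩
  -- closure under supersets
  have sup : ∀ e1 B B', le e1 e1 → (e1, B') ∈ m → Low le B →
      (∀ d i, le d e1 → B' d i → B d i) → (e1, B) ∈ m := by
    intro e1 B B' he1 h1 h2 h3
    let m' : Set (C × (C → ℕ → Prop)) := {x | x ∈ m ∨ (le x.1 x.1 ∧ Low le x.2 ∧
      ∃ B', (x.1, B') ∈ m ∧ ∀ d i, le d x.1 → B' d i → x.2 d i)}
    have key : ∀ x ∈ m', le x.1 x.1 → Low le x.2 ∧
        ∃ B', (x.1, B') ∈ m ∧ ∀ d i, le d x.1 → B' d i → x.2 d i := by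
      rintro x (hx | hx) _
      · exact ⟨hP.low _ _ hx, x.2, hx, fun _ _ _ h => h⟩
      · exact hx.2
    have hm' : Pre le fun e A => (e, A) ∈ m' := by
      refine ⟨?_, ?_, fun e k he => Or.inl (hP.cof e k he), fun e A he h1 => ?_, ?_⟩
      · rintro e e' A h1 (h2 | ⟨-, h2, B', h3, h4⟩)
        · exact Or.inl (hP.mono e e' A h1 h2)
        · exact Or.inr ⟨h.refl h1, h2, B', hP.mono e e' B' h1 h3,
            fun d i hd => h4 d i (h.trans hd h1)⟩
      · intro e A B h1 h2
        by_cases he : le e e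
        · obtain ⟨g1, A', g2, g3⟩ := key _ h1 he
          obtain ⟨k1, B', k2, k3⟩ := key _ h2 he
          exact Or.inr ⟨he, g1.and k1, _, hP.inter e A' B' g2 k2,
            fun d i hd hh => ⟨g3 d i hd hh.1, k3 d i hd hh.2⟩⟩
        · exact Or.inl (hP.inter e A B (h1.resolve_right fun h => he h.1)
            (h2.resolve_right fun h => he h.1))
      · obtain ⟨-, A', g2, g3⟩ := key _ h1 he
        obtain ⟨e', g4, i, g5⟩ := hP.proper e A' he g2
        exact ⟨e', g4, i, g3 e' i g4 g5⟩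
      · rintro e A (h1 | h1)
        · exact hP.low e A h1
        · exact h1.2.1
    exact hm.le_of_ge hm' (fun x hx => Or.inl hx) (Or.inr ⟨he1, h2, B', h1, h3⟩)
  let m' : Set (C × (C → ℕ → Prop)) := {x | x ∈ m ∨ (le x.1 e ∧
    ∃ B', (x.1, B') ∈ m ∧ x.2 = fun d i => B' d i ∧ A d i)}
  have hm' : Pre le fun e A => (e, A) ∈ m' := by
    refine ⟨?_, ?_, fun e k he => Or.inl (hP.cof e k he), ?_, ?_⟩
    · rintro e1 e2 B h1 (h2 | ⟨h2, B', h3, h4⟩)
      · exact Or.inl (hP.mono _ _ _ h1 h2)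
      · exact Or.inr ⟨h.trans h1 h2, B', hP.mono _ _ _ h1 h3, h4⟩
    · rintro e1 B1 B2 (h1 | ⟨h1, B1', h2, rfl⟩) (g1 | ⟨g1, B2', g2, rfl⟩)
      · exact Or.inl (hP.inter _ _ _ h1 g1)
      · exact Or.inr ⟨g1, _, hP.inter _ _ _ h1 g2, by funext d i; simp only [and_assoc]⟩
      · refine Or.inr ⟨h1, _, hP.inter _ _ _ h2 g1, ?_⟩
        funext d i
        exact propext (by tauto)
      · refine Or.inr ⟨h1, _, hP.inter _ _ _ h2 g2, ?_⟩
        funext d i
        exact propext (by tauto)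
    · rintro e1 B he1 (h1 | ⟨h1, B', h2, rfl⟩)
      · exact hP.proper _ _ he1 h1
      · by_contra hcon
        refine hn e1 h1 (sup e1 _ B' he1 h2 (low_perp h A) fun d i hd hB e' he' hA' => ?_)
        exact hcon ⟨e', h.trans he' hd, i, hP.low _ _ h2 d e' i he' hB, hA'⟩
    · rintro e1 B (h1 | ⟨-, B', h2, rfl⟩)
      · exact hP.low _ _ h1
      · exact (hP.low _ _ h2).and hA
  refine sup e A _ he (hm.le_of_ge hm' (fun x hx => Or.inl hx)
    (Or.inr ⟨he, _, hP.cof e 0 he, rfl⟩)) hA fun d i _ hh => hh.2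

namespace IsUF
variable {D : C → (C → ℕ → Prop) → Prop}

/-- closure under dense supersets and density -/
theorem of_dense (hD : IsUF le D) (h : IsRel le) {e : C} {A : C → ℕ → Prop} (he : le e e)
    (hA : Low le A) (h1 : ∀ e1, le e1 e → ∃ e2, le e2 e1 ∧ ∃ B, D e2 B ∧
      ∀ d i, le d e2 → B d i → ∃ d', le d' d ∧ A d' i) : D e A := by
  refine hD.ultra e A he hA fun e1 h2 h3 => ?_
  obtain ⟨e2, h4, B, h5, h6⟩ := h1 e1 h2
  obtain ⟨d, h7, i, h8, h9⟩ := hD.proper e2 _ (h.refl h4)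
    (hD.inter e2 _ _ h5 (hD.mono _ _ _ h4 h3))
  obtain ⟨d', g1, g2⟩ := h6 d i h7 h8
  exact h9 d' g1 g2

theorem sup (hD : IsUF le D) (h : IsRel le) {e : C} {A B : C → ℕ → Prop} (he : le e e)
    (hA : Low le A) (hB : D e B) (h1 : ∀ d i, le d e → B d i → A d i) : D e A :=
  hD.of_dense h he hA fun e1 h2 => ⟨e1, h.refl h2, B, hD.mono _ _ _ h2 hB,
    fun d i hd hb => ⟨d, h.refl hd, h1 d i (h.trans hd h2) hb⟩⟩

theorem univ (hD : IsUF le D) (h : IsRel le) {e : C} {A : C → ℕ → Prop} (he : le e e)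
    (hA : Low le A) (h1 : ∀ d i, le d e → A d i) : D e A :=
  hD.sup h he hA (hD.cof e 0 he) fun d i hd _ => h1 d i hd

theorem finite (hD : IsUF le D) (h : IsRel le) {e : C} (he : le e e) {ι : Type} {s : Set ι}
    (hs : s.Finite) {A : ι → C → ℕ → Prop} (h1 : ∀ x ∈ s, D e (A x)) :
    D e fun d i => ∀ x ∈ s, A x d i := by
  induction s, hs using Set.Finite.induction_on with
  | empty => exact hD.univ h he (fun _ _ _ _ _ _ hx => hx.elim) fun _ _ _ _ hx => hx.elim
  | insert _ _ ih =>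
    have := hD.inter e _ _ (h1 _ (Set.mem_insert _ _))
      (ih fun x hx => h1 x (Set.mem_insert_of_mem _ hx))
    simpa only [Set.forall_mem_insert] using this

end IsUF

/-- the relation below a fixed condition -/
def cone (le : C → C → Prop) (q : C) : C → C → Prop := fun a b => le a b ∧ le a q

theorem IsRel.cone (h : IsRel le) (q : C) : IsRel (cone le q) :=
  ⟨fun h1 h2 => ⟨h.trans h1.1 h2.1, h1.2⟩, fun h1 => ⟨h.refl h1.1, h1.2⟩⟩

theorem Low.cone {A : C → ℕ → Prop} (hA : Low le A) (q : C) : Low (cone le q) A :=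
  fun e e' i h => hA e e' i h.1

end Pool.Agent.P.MP_0c5c88_lc
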