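import Pool.Agent.P.MP_0c5c88_lc.Types
import Pool.Agent.P.MP_0c5c88_lc.UF
import Pool.Agent.Lib.PosetForcing.Card

set_option autoImplicit false

/-! The order of the matrix iteration and its basic properties. -/

open Pool.Agent.Lib.PosetForcing

namespace Pool.Agent.P.MP_0c5c88_lc

/-- values coding bits -/
def bv (b : Bool) : V := (b.toNat, ∅)

theorem bv_inj {b b' : Bool} (h : bv b = bv b') : b = b' := by
  cases b <;> cases b' <;> simp_all [bv]

/-- coordinates of the points of the generic sets -/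
noncomputable def xc (z : Z) (a : Row) : Co := ⟨⊥, a, z, Set.univ⟩

/-- coordinates of the reals that space out the blocks -/
noncomputable def kc (z : Z) : Co := ⟨⊥, ⊥, z, ∅⟩

theorem xc_ne_kc (z z' : Z) (a : Row) : xc z a ≠ kc z' := fun h =>
  Set.empty_ne_univ (congrArg Co.lam h).symm

section
variable (l : C → C → Prop)

/-- `e` decides that the name coded by `ν` has value `v` at `n` -/
def Dec (e : C) (ν : Lam) (n : ℕ) (v : V) : Prop :=
  ∀ e1, l e1 e → ∃ e2, l e2 e1 ∧ ∃ g, (g, n, v) ∈ nm ν ∧ l e2 g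

/-- `ν` codes a name for a real -/
def Tot (ν : Lam) : Prop :=
  ∀ e, l e e → ∀ n, ∃ e', l e' e ∧ ∃ g b, (g, n, bv b) ∈ nm ν ∧ l e' g

/-- the stem of `a` has bit `b` at `n` -/
def Rd (a : Y) (n : ℕ) (b : Bool) : Prop := n < a.t ∧ (n ∈ a.y ↔ b = true)

/-- inside `[a, b)` there is an interval given by the task `ν` where `y` is the pattern of the
task plus the bits `bt` -/
def Match (e : C) (ν : Lam) (bt : ℕ → Bool → Prop) (a b : ℕ) (y : Finset ℕ) : Prop :=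
  ∃ a' b' u, a ≤ a' ∧ b' ≤ b ∧ Dec l e ν a' (b', u) ∧
    ∀ n, a' ≤ n → n < b' → ∃ β, bt n β ∧ (n ∈ y ↔ ¬ (n ∈ u ↔ β = true))

/-- the zero bits -/
def zb : ℕ → Bool → Prop := fun _ β => β = false

/-- the block has zero matches on both sides of a point of the spacing real -/
def Good (e : C) (d : Co) (B : ℕ × ℕ) (y : Finset ℕ) : Prop :=
  ∃ m, B.1 ≤ m ∧ m ≤ B.2 ∧ Rd (e (kc d.z)) m true ∧ Match l e d.lam zb B.1 m y ∧
    Match l e d.lam zb m B.2 y

/-- valid values -/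
structure Val (d : Co) (a : Y) : Prop where
  tot : ∀ ν ∈ a.F0, Tot l ν
  f1 : ∀ α ∈ a.F1, d.row ≤ α ∧ ⊥ < d.rnd
  blk : ∀ B ∈ a.E, ⊥ < d.rnd ∧ B.2 ≤ a.t

/-- extension of the finite data -/
structure Soft (β : Row) (a b : Y) : Prop where
  t : b.t ≤ a.t
  y : ∀ n < b.t, (n ∈ a.y ↔ n ∈ b.y)
  E : b.E ⊆ a.E
  F0 : b.F0 ⊆ a.F0
  F1 : ∀ α ∈ b.F1, α < β → α ∈ a.F1

/-- requirements on a new block -/
structure New (β : Row) (d : Co) (e : C) (b : Y) (B : ℕ × ℕ) (y : Finset ℕ) : Prop where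
  start : b.t ≤ B.1
  good : 0 < b.t → Good l e d B y
  m0 : ∀ ν ∈ b.F0, Match l e d.lam (fun n β => Dec l e ν n (bv β)) B.1 B.2 y
  m1 : ∀ α ∈ b.F1, α < β → Match l e d.lam (Rd (e (xc d.z α))) B.1 B.2 y

/-- extension of values in the context `e` -/
def Ext (β : Row) (d : Co) (e : C) (a b : Y) : Prop :=
  Soft β a b ∧ ∀ B ∈ a.E, B ∉ b.E → New l β d e b B a.y

end

/-- the order at round `r` and row `β` -/
noncomputable def leR : Rnd → Row → C → C → Prop :=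
  (wellFounded_lt (α := Rnd)).fix fun r ih β p q => ∀ d : Co, ∀ h : d.rnd < r, d.row < β →
    Val (ih d.rnd h d.row) d (p d) ∧ Ext (ih d.rnd h d.row) β d p (p d) (q d)

/-- the order below a coordinate -/
noncomputable abbrev lo (d : Co) : C → C → Prop := leR d.rnd d.row

theorem leR_iff {r : Rnd} {β : Row} {p q : C} : leR r β p q ↔
    ∀ d : Co, d.rnd < r → d.row < β → Val (lo d) d (p d) ∧ Ext (lo d) β d p (p d) (q d) := by
  rw [leR, WellFounded.fix_eq]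
  rfl

section basic
variable {l : C → C → Prop} {β β' : Row} {d : Co} {e e' : C} {a b c : Y}

theorem Soft.refl (β : Row) (a : Y) : Soft β a a :=
  ⟨le_rfl, fun _ _ => Iff.rfl, subset_rfl, subset_rfl, fun _ h _ => h⟩

theorem Soft.trans (h : Soft β a b) (h' : Soft β b c) : Soft β a c :=
  ⟨h'.t.trans h.t, fun n hn => (h.y n (hn.trans_le h'.t)).trans (h'.y n hn), h'.E.trans h.E,
    h'.F0.trans h.F0, fun α h1 h2 => h.F1 α (h'.F1 α h1 h2) h2⟩

theorem Soft.mono (h : Soft β a b) (h' : β' ≤ β) : Soft β' a b :=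
  ⟨h.t, h.y, h.E, h.F0, fun α h1 h2 => h.F1 α h1 (h2.trans_le h')⟩

theorem Soft.zero (β : Row) (a : Y) : Soft β a 0 :=
  ⟨Nat.zero_le _, fun _ h => absurd h (Nat.not_lt_zero _), Finset.empty_subset _,
    Finset.empty_subset _, fun _ h => absurd h (Finset.notMem_empty _)⟩

theorem Rd.soft {n : ℕ} {v : Bool} (h : Rd b n v) (h' : Soft β a b) : Rd a n v :=
  ⟨h.1.trans_le h'.t, (h'.y n h.1).trans h.2⟩

theorem Val.zero (l : C → C → Prop) (d : Co) : Val l d 0 :=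
  ⟨fun _ h => absurd h (Finset.notMem_empty _), fun _ h => absurd h (Finset.notMem_empty _),
    fun _ h => absurd h (Finset.notMem_empty _)⟩

theorem Dec.mono (hl : IsRel l) {ν : Lam} {n : ℕ} {v : V} (h : Dec l e ν n v) (h' : l e' e) :
    Dec l e' ν n v := fun e1 h1 => h e1 (hl.trans h1 h')

theorem Dec.of_mem (hl : IsRel l) {ν : Lam} {n : ℕ} {v : V} {g : C} (h : (g, n, v) ∈ nm ν)
    (h' : l e g) : Dec l e ν n v := fun e1 h1 => ⟨e1, hl.refl h1, g, h, hl.trans h1 h'⟩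

theorem Match.imp {ν : Lam} {bt bt' : ℕ → Bool → Prop} {s t s' t' : ℕ} {y y' : Finset ℕ}
    (h : Match l e ν bt s t y) (h1 : ∀ n v, Dec l e ν n v → Dec l e' ν n v)
    (h2 : ∀ n β, s ≤ n → n < t → bt n β → bt' n β) (h3 : s' ≤ s) (h4 : t ≤ t')
    (h5 : ∀ n, s ≤ n → n < t → (n ∈ y' ↔ n ∈ y)) : Match l e' ν bt' s' t' y' := by
  obtain ⟨a', b', u, g1, g2, g3, g4⟩ := h
  refine ⟨a', b', u, h3.trans g1, g2.trans h4, h1 _ _ g3, fun n k1 k2 => ?_⟩
  obtain ⟨β, k3, k4⟩ := g4 n k1 k2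
  exact ⟨β, h2 n β (g1.trans k1) (k2.trans_le g2) k3,
    (h5 n (g1.trans k1) (k2.trans_le g2)).trans k4⟩

theorem Good.zero_match {B : ℕ × ℕ} {y : Finset ℕ} (h : Good l e d B y) :
    Match l e d.lam zb B.1 B.2 y := by
  obtain ⟨m, -, h2, -, h3, -⟩ := h
  exact h3.imp (fun _ _ h => h) (fun _ _ _ _ h => h) le_rfl h2 fun _ _ _ => Iff.rfl

/-- a zero match is a match for any real that vanishes on the block -/
theorem Match.of_zero {ν : Lam} {s t : ℕ} {y : Finset ℕ} (h : Match l e ν zb s t y) {x : Y}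
    (h1 : t ≤ x.t) (h2 : ∀ n, s ≤ n → n < t → n ∉ x.y) : Match l e ν (Rd x) s t y :=
  h.imp (fun _ _ h => h) (fun n β g1 g2 g3 => ⟨g2.trans_le h1, by
    rw [show β = false from g3]; simpa using h2 n g1 g2⟩) le_rfl le_rfl fun _ _ _ => Iff.rfl

theorem New.anti {B : ℕ × ℕ} {y : Finset ℕ} (h : New l β d e b B y) (h' : Soft β b c) :
    New l β d e c B y :=
  ⟨h'.t.trans h.start, fun h0 => h.good (h0.trans_le h'.t), fun ν hν => h.m0 ν (h'.F0 hν),
    fun α h1 h2 => h.m1 α (h'.F1 α h1 h2) h2⟩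

theorem New.mono {B : ℕ × ℕ} {y : Finset ℕ} (h : New l β d e b B y) (h' : β' ≤ β) :
    New l β' d e b B y :=
  ⟨h.start, h.good, h.m0, fun α h1 h2 => h.m1 α h1 (h2.trans_le h')⟩

theorem New.zero (l : C → C → Prop) (β : Row) (d : Co) (e : C) (B : ℕ × ℕ) (y : Finset ℕ) :
    New l β d e 0 B y :=
  ⟨Nat.zero_le _, fun h => absurd h (lt_irrefl 0), fun _ h => absurd h (Finset.notMem_empty _),
    fun _ h => absurd h (Finset.notMem_empty _)⟩

theorem Ext.zero (l : C → C → Prop) (β : Row) (d : Co) (e : C) (a : Y) : Ext l β d e a 0 :=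
  ⟨Soft.zero β a, fun B _ _ => New.zero l β d e B _⟩

theorem Ext.of_soft (h : Soft β a b) (h' : a.E ⊆ b.E) : Ext l β d e a b :=
  ⟨h, fun _ h1 h2 => absurd (h' h1) h2⟩

theorem Ext.refl : Ext l β d e a a := Ext.of_soft (Soft.refl β a) subset_rfl

theorem Ext.mono (h : Ext l β d e a b) (h' : β' ≤ β) : Ext l β' d e a b :=
  ⟨h.1.mono h', fun B h1 h2 => (h.2 B h1 h2).mono h'⟩

/-- raising the row of an extension -/
theorem Ext.upgrade (h : Ext l β' d e a b)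
    (h' : ∀ α ∈ b.F1, β' ≤ α → α < β → α ∈ a.F1 ∧
      ∀ B ∈ a.E, B ∉ b.E → Match l e d.lam (Rd (e (xc d.z α))) B.1 B.2 a.y) :
    Ext l β d e a b := by
  refine ⟨⟨h.1.t, h.1.y, h.1.E, h.1.F0, fun α h1 h2 => ?_⟩, fun B h1 h2 => ?_⟩
  · rcases lt_or_ge α β' with h3 | h3
    · exact h.1.F1 α h1 h3
    · exact (h' α h1 h3 h2).1
  · refine ⟨(h.2 B h1 h2).start, (h.2 B h1 h2).good, (h.2 B h1 h2).m0, fun α g1 g2 => ?_⟩
    rcases lt_or_ge α β' with h3 | h3
    · exact (h.2 B h1 h2).m1 α g1 h3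
    · exact (h' α g1 h3 g2).2 B h1 h2

end basic

section order
variable {r r' : Rnd} {β β' γ : Row} {p q s : C} {d : Co}

theorem leR.val (h : leR r β p q) (h1 : d.rnd < r) (h2 : d.row < β) : Val (lo d) d (p d) :=
  (leR_iff.1 h d h1 h2).1

theorem leR.ext (h : leR r β p q) (h1 : d.rnd < r) (h2 : d.row < β) :
    Ext (lo d) β d p (p d) (q d) := (leR_iff.1 h d h1 h2).2

theorem leR.soft (h : leR r β p q) (h1 : d.rnd < r) (h2 : d.row < β) : Soft β (p d) (q d) :=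
  (h.ext h1 h2).1

theorem leR.mono (h : leR r β p q) (h1 : r' ≤ r) (h2 : β' ≤ β) : leR r' β' p q :=
  leR_iff.2 fun _ g1 g2 => ⟨h.val (g1.trans_le h1) (g2.trans_le h2),
    (h.ext (g1.trans_le h1) (g2.trans_le h2)).mono h2⟩

theorem leR.refl (h : leR r β p q) : leR r β p p :=
  leR_iff.2 fun _ g1 g2 => ⟨h.val g1 g2, Ext.refl⟩

theorem Match.transfer (hl : IsRel (lo d)) {bt bt' : ℕ → Bool → Prop} {a b : ℕ} {y y' : Finset ℕ}
    (h : Match (lo d) q d.lam bt a b y) (h1 : lo d s q) (h2 : ∀ n β, bt n β → bt' n β)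
    (h5 : ∀ n, n < b → (n ∈ y' ↔ n ∈ y)) : Match (lo d) s d.lam bt' a b y' :=
  h.imp (fun _ _ h => h.mono hl h1) (fun n β _ _ => h2 n β) le_rfl le_rfl fun n _ => h5 n

theorem Good.transfer (hl : IsRel (lo d)) {B : ℕ × ℕ} {y y' : Finset ℕ}
    (h : Good (lo d) q d B y) (h1 : leR d.rnd γ s q) (h2 : d.row < γ) (h4 : ⊥ < d.rnd)
    (h5 : ∀ n, n < B.2 → (n ∈ y' ↔ n ∈ y)) : Good (lo d) s d B y' := by
  obtain ⟨m, g1, g2, g3, g4, g5⟩ := h
  have h6 : lo d s q := h1.mono le_rfl h2.le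
  exact ⟨m, g1, g2, g3.soft (h1.soft (d := kc d.z) h4 (bot_le.trans_lt h2)),
    g4.transfer hl h6 (fun _ _ h => h) fun n hn => h5 n (hn.trans_le g2),
    g5.transfer hl h6 (fun _ _ h => h) h5⟩

theorem New.transfer (hl : IsRel (lo d)) {b : Y} {B : ℕ × ℕ} {y y' : Finset ℕ}
    (h : New (lo d) β d q b B y) (h1 : leR d.rnd γ s q) (h2 : d.row < γ) (h3 : β ≤ γ)
    (h4 : ⊥ < d.rnd) (h5 : ∀ n, n < B.2 → (n ∈ y' ↔ n ∈ y)) : New (lo d) β d s b B y' := by
  have h6 : lo d s q := h1.mono le_rfl h2.le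
  exact ⟨h.start, fun h0 => (h.good h0).transfer hl h1 h2 h4 h5,
    fun ν hν => (h.m0 ν hν).transfer hl h6 (fun _ _ h => h.mono hl h6) h5,
    fun α g1 g2 => (h.m1 α g1 g2).transfer hl h6
      (fun _ _ h => h.soft (h1.soft (d := xc d.z α) h4 (g2.trans_le h3))) h5⟩

theorem isRel_leR (r : Rnd) : ∀ β, IsRel (leR r β) := by
  induction r using WellFoundedLT.induction with
  | ind r ih =>
    refine fun β => ⟨fun {p q s} h h' => leR_iff.2 fun d g1 g2 => ⟨h.val g1 g2,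
      (h.soft g1 g2).trans (h'.soft g1 g2), fun B k1 k2 => ?_⟩, leR.refl⟩
    by_cases k3 : B ∈ (q d).E
    · exact ((h'.ext g1 g2).2 B k3 k2).transfer (ih _ g1 _) (h.mono g1.le le_rfl) g2 le_rfl
        ((h'.val g1 g2).blk B k3).1
        fun n hn => (h.soft g1 g2).y n (hn.trans_le ((h'.val g1 g2).blk B k3).2)
    · exact ((h.ext g1 g2).2 B k1 k3).anti (h'.soft g1 g2)

theorem leR.trans (h : leR r β p q) (h' : leR r β q s) : leR r β p s := (isRel_leR r β).trans h h'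

theorem isRel_lo (d : Co) : IsRel (lo d) := isRel_leR _ _

/-- extension of a value in another context -/
theorem Ext.transfer {a b : Y} (h : Ext (lo d) β d q a b) (hv : Val (lo d) d a)
    (h1 : leR d.rnd γ s q) (h2 : d.row < γ) (h3 : β ≤ γ) : Ext (lo d) β d s a b :=
  ⟨h.1, fun B g1 g2 => (h.2 B g1 g2).transfer (isRel_lo d) h1 h2 h3 (hv.blk B g1).1
    fun _ _ => Iff.rfl⟩

theorem leR_of_soft (h : ∀ d : Co, d.rnd < r → d.row < β →
    Val (lo d) d (p d) ∧ Soft β (p d) (q d) ∧ (p d).E ⊆ (q d).E) : leR r β p q :=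
  leR_iff.2 fun d g1 g2 => ⟨(h d g1 g2).1, Ext.of_soft (h d g1 g2).2.1 (h d g1 g2).2.2⟩

theorem leR.zero (h : leR r β p q) : leR r β p 0 :=
  leR_iff.2 fun _ g1 g2 => ⟨h.val g1 g2, Ext.zero _ _ _ _ _⟩

theorem leR_zero : leR r β 0 0 := leR_iff.2 fun _ _ _ => ⟨Val.zero _ _, Ext.refl⟩

theorem leR.congr_left (h : leR r β p q) (e : ∀ d : Co, d.rnd < r → d.row < β → s d = p d) :
    leR r β s q :=
  (leR_of_soft fun d g1 g2 => by
    rw [e d g1 g2]; exact ⟨h.val g1 g2, Soft.refl _ _, subset_rfl⟩).trans h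

theorem leR.congr_right (h : leR r β p q) (e : ∀ d : Co, d.rnd < r → d.row < β → s d = q d) :
    leR r β p s :=
  leR_iff.2 fun d g1 g2 => by rw [e d g1 g2]; exact leR_iff.1 h d g1 g2

theorem leR_bot (r : Rnd) (p q : C) : leR r ⊥ p q := leR_iff.2 fun _ _ h => absurd h not_lt_bot

end order

theorem exists_cond (f : Co → Y) {s : Set Co} (hs : s.Finite) (h : ∀ d, d ∉ s → f d = 0) :
    ∃ c : C, ∀ d, c d = f d :=
  ⟨Finsupp.ofSupportFinite f (hs.subset fun d hd => by_contra fun h' => hd (h d h')),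
    fun _ => rfl⟩

theorem exists_cond2 (p q : C) (f : Co → Y) (h : ∀ d, p d = 0 → q d = 0 → f d = 0) :
    ∃ c : C, ∀ d, c d = f d :=
  exists_cond f (p.hasFiniteSupport.union q.hasFiniteSupport) fun d hd => by
    simp only [Set.mem_union, Function.mem_support, not_or, not_not] at hd
    exact h d hd.1 hd.2

theorem exists_bound (c : C) : ∃ n, ∀ d, (c d).t ≤ n := by
  refine ⟨c.support.sup fun d => (c d).t, fun d => ?_⟩
  by_cases h : c d = 0
  · simp [h]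
  · exact Finset.le_sup (f := fun d => (c d).t) (Finsupp.mem_support_iff.2 h)

/-- gluing along a round -/
theorem glue {r r0 : Rnd} {β : Row} {c e : C} (hc : leR r β c c) (he : leR r0 β e c) :
    ∃ g, leR r β g c ∧ leR r0 β g e ∧ (∀ d, d.rnd < r0 → g d = e d) ∧
      ∀ d, r0 ≤ d.rnd → g d = c d := by
  classical
  obtain ⟨g, hg⟩ := exists_cond2 c e (fun d => if d.rnd < r0 then e d else c d)
    fun d h1 h2 => by simp [h1, h2]
  have h1 : ∀ d, d.rnd < r0 → g d = e d := fun d hd => by rw [hg, if_pos hd]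
  have h2 : ∀ d, r0 ≤ d.rnd → g d = c d := fun d hd => by rw [hg, if_neg hd.not_gt]
  have h3 : leR r0 β g e := he.refl.congr_left fun d hd _ => h1 d hd
  refine ⟨g, leR_iff.2 fun d g1 g2 => ?_, h3, h1, h2⟩
  rcases lt_or_ge d.rnd r0 with h | h
  · exact leR_iff.1 (h3.trans he) d h g2
  · rw [h2 d h]
    exact ⟨hc.val g1 g2, Ext.refl⟩

/-- adding the promises of `b` to `a` -/
noncomputable def addF (a b : Y) : Y := by
  classical
  exact ⟨a.t, a.y, a.E, a.F0 ∪ b.F0, a.F1 ∪ b.F1⟩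

@[simp] theorem addF_t (a b : Y) : (addF a b).t = a.t := rfl
@[simp] theorem addF_y (a b : Y) : (addF a b).y = a.y := rfl
@[simp] theorem addF_E (a b : Y) : (addF a b).E = a.E := rfl

theorem mem_addF0 {a b : Y} {ν : Lam} : ν ∈ (addF a b).F0 ↔ ν ∈ a.F0 ∨ ν ∈ b.F0 := by
  simp [addF]

theorem mem_addF1 {a b : Y} {α : Row} : α ∈ (addF a b).F1 ↔ α ∈ a.F1 ∨ α ∈ b.F1 := by
  simp [addF]

theorem addF_zero (a : Y) : addF a 0 = a := by
  ext <;> simp [addF]

theorem Val.addF {l : C → C → Prop} {d : Co} {a b : Y} (ha : Val l d a) (hb : Val l d b) :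
    Val l d (addF a b) :=
  ⟨fun ν h => (mem_addF0.1 h).elim (ha.tot ν) (hb.tot ν),
    fun α h => (mem_addF1.1 h).elim (ha.f1 α) (hb.f1 α), ha.blk⟩

theorem soft_addF (β : Row) (a b : Y) : Soft β (addF a b) a :=
  ⟨le_rfl, fun _ _ => Iff.rfl, subset_rfl, fun _ h => mem_addF0.2 (Or.inl h),
    fun _ h _ => mem_addF1.2 (Or.inl h)⟩

theorem soft_addF' (β : Row) {a b : Y} (h1 : b.t ≤ a.t) (h2 : ∀ n < b.t, (n ∈ a.y ↔ n ∈ b.y))
    (h3 : b.E ⊆ a.E) : Soft β (addF a b) b :=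
  ⟨h1, h2, h3, fun _ h => mem_addF0.2 (Or.inr h), fun _ h _ => mem_addF1.2 (Or.inr h)⟩

/-- extending the stem to length `N` by the pattern `u` -/
def pext (a : Y) (N : ℕ) (u : Finset ℕ) : Y :=
  ⟨max a.t N, a.y.filter (· < a.t) ∪ u.filter (a.t ≤ ·), a.E, a.F0, a.F1⟩

@[simp] theorem pext_t (a : Y) (N : ℕ) (u : Finset ℕ) : (pext a N u).t = max a.t N := rfl
@[simp] theorem pext_E (a : Y) (N : ℕ) (u : Finset ℕ) : (pext a N u).E = a.E := rfl
@[simp] theorem pext_F0 (a : Y) (N : ℕ) (u : Finset ℕ) : (pext a N u).F0 = a.F0 := rfl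
@[simp] theorem pext_F1 (a : Y) (N : ℕ) (u : Finset ℕ) : (pext a N u).F1 = a.F1 := rfl

theorem mem_pext {a : Y} {N n : ℕ} {u : Finset ℕ} (h : a.t ≤ n) : n ∈ (pext a N u).y ↔ n ∈ u := by
  simp [pext, h, h.not_gt]

theorem Val.pext {l : C → C → Prop} {d : Co} {a : Y} (ha : Val l d a) (N : ℕ) (u : Finset ℕ) :
    Val l d (pext a N u) :=
  ⟨ha.tot, ha.f1, fun B h => ⟨(ha.blk B h).1, (ha.blk B h).2.trans (le_max_left _ _)⟩⟩

theorem soft_pext (β : Row) (a : Y) (N : ℕ) (u : Finset ℕ) : Soft β (pext a N u) a :=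
  ⟨le_max_left _ _, fun n hn => by simp [pext, hn, hn.not_ge], subset_rfl, subset_rfl,
    fun _ h _ => h⟩

/-- extending stems on a finite set of coordinates -/
theorem exists_pext {r : Rnd} {β : Row} {c : C} (hc : leR r β c c) {s : Set Co} (hs : s.Finite)
    (N : Co → ℕ) (u : Co → Finset ℕ) : ∃ c', leR r β c' c ∧
      (∀ d ∈ s, c' d = pext (c d) (N d) (u d)) ∧ ∀ d ∉ s, c' d = c d := by
  classical
  obtain ⟨g, hg⟩ := exists_cond (fun d => if d ∈ s then pext (c d) (N d) (u d) else c d)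
    (hs.union c.hasFiniteSupport) fun d hd => by
      simp only [Set.mem_union, Function.mem_support, not_or, not_not] at hd
      rw [if_neg hd.1, hd.2]
  refine ⟨g, leR_of_soft fun d g1 g2 => ?_, fun d hd => by rw [hg, if_pos hd],
    fun d hd => by rw [hg, if_neg hd]⟩
  rw [hg]
  split_ifs
  · exact ⟨(hc.val g1 g2).pext _ _, soft_pext _ _ _ _, subset_rfl⟩
  · exact ⟨hc.val g1 g2, Soft.refl _ _, subset_rfl⟩

/-- the conditions of a level -/
def LP (r : Rnd) (β : Row) : Type := {c : C // leR r β c c}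

instance (r : Rnd) (β : Row) : Preorder (LP r β) where
  le p q := leR r β p.1 q.1
  le_refl p := p.2
  le_trans _ _ _ := leR.trans

noncomputable instance (r : Rnd) (β : Row) : OrderTop (LP r β) where
  top := ⟨0, leR_zero⟩
  le_top p := p.2.zero

theorem ccc_LP (r : Rnd) (β : Row) : CCC (LP r β) := by
  classical
  intro ι I hI p
  obtain ⟨D, I1, h1, h2, -, h4⟩ := exists_delta (fun i => (p i).1.support) hI
  obtain ⟨y, hy⟩ := exists_fiber
    (fun i => fun d : D => (((p i).1 d).t, ((p i).1 d).y, ((p i).1 d).E)) h2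
  obtain ⟨i, hi, j, hj, hij⟩ := exists_ne_of_not_countable hy
  refine ⟨i, h1 hi.1, j, h1 hj.1, hij, ?_⟩
  obtain ⟨g, hg⟩ := exists_cond2 (p i).1 (p j).1
    (fun d => if (p i).1 d = 0 then (p j).1 d else addF ((p i).1 d) ((p j).1 d))
    fun d h1 h2 => by simp [h1, h2]
  have k1 : leR r β g (p i).1 := leR_iff.2 fun d g1 g2 => by
    rw [hg]
    split_ifs with h
    · rw [h]
      exact ⟨(p j).2.val g1 g2, Ext.zero _ _ _ _ _⟩
    · exact ⟨((p i).2.val g1 g2).addF ((p j).2.val g1 g2),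
        Ext.of_soft (soft_addF _ _ _) subset_rfl⟩
  have k2 : leR r β g (p j).1 := leR_iff.2 fun d g1 g2 => ⟨k1.val g1 g2, by
    rw [hg]
    split_ifs with h
    · exact Ext.refl
    · by_cases h' : (p j).1 d = 0
      · rw [h']
        exact Ext.zero _ _ _ _ _
      · have hd := h4 i hi.1 j hj.1 hij d (Finsupp.mem_support_iff.2 h)
          (Finsupp.mem_support_iff.2 h')
        have e := congrFun (hi.2.trans hj.2.symm) ⟨d, hd⟩
        simp only [Prod.mk.injEq] at e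
        exact Ext.of_soft (soft_addF' _ e.1.ge (fun n _ => by rw [e.2.1]) e.2.2.ge) e.2.2.le⟩
  exact ⟨⟨g, k1.refl⟩, k1, k2⟩

theorem exists_antichain (r : Rnd) (β : Row) (W : C → Prop) : ∃ S : Set C, S.Countable ∧
    (∀ g ∈ S, W g ∧ leR r β g g) ∧
    ∀ e, leR r β e e → W e → ∃ g ∈ S, ∃ e', leR r β e' e ∧ leR r β e' g := by
  obtain ⟨S, h1, h2, h3⟩ := (ccc_LP r β).exists_antichain {p | W p.1}
  refine ⟨Subtype.val '' S, h2.image _, ?_, fun e he hW => ?_⟩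
  · rintro _ ⟨g, hg, rfl⟩
    exact ⟨h1 hg, g.2⟩
  · obtain ⟨g, hg, e', g1, g2⟩ := h3 ⟨e, he⟩ hW
    exact ⟨g.1, ⟨g, hg, rfl⟩, e'.1, g2, g1⟩

end Pool.Agent.P.MP_0c5c88_lc
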