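import Pool.Agent.Lib.PosetForcing.CardDefs

set_option autoImplicit false

/-! The ideal of meager-additive sets and its four cardinal characteristics, written inside a
structure `(M, mem)`; all quantifiers range over `M`. Cantor space is the power set `C` of `w = ω`,
a point of `2^ω` being identified with the set where it takes the value `1`, so that addition
modulo `2` is symmetric difference. -/

open Pool.Agent.Lib.PosetForcing

namespace Pool.Agent.P.MP_0c5c88_lc

universe v

variable {M : Type v} (mem : M → M → Prop)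

/-- `x ↾ k = y ↾ k` -/
def AgreeTo (x y k : M) : Prop := ∀ m, mem m k → (mem m x ↔ mem m y)

/-- `N` is nowhere dense in Cantor space: every basic open set `[x ↾ k]` has a point `y` with a
basic neighbourhood `[y ↾ l]` that misses `N` -/
def Nwd (w C N : M) : Prop :=
  ∀ x, mem x C → ∀ k, mem k w → ∃ y, mem y C ∧ ∃ l, mem l w ∧ AgreeTo mem x y k ∧
    ∀ z, mem z C → AgreeTo mem y z l → ¬ mem z N

/-- `A ⊆ C` is covered by countably many nowhere dense sets -/
def Meager (w C A : M) : Prop :=
  IsSub mem A C ∧ ∃ F, LeCard mem F w ∧ (∀ N, mem N F → Nwd mem w C N) ∧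
    ∀ z, mem z A → ∃ N, mem N F ∧ mem z N

/-- `z = x + a`, coordinatewise addition modulo `2` -/
def IsSum (w z x a : M) : Prop := ∀ m, mem m w → (mem m z ↔ ¬ (mem m x ↔ mem m a))

/-- `X ⊆ C` is meager-additive: `X + A` is meager for every meager `A` -/
def MAdd (w C X : M) : Prop :=
  IsSub mem X C ∧ ∀ A, Meager mem w C A → ∀ S,
    (∀ z, mem z S ↔ mem z C ∧ ∃ x, mem x X ∧ ∃ a, mem a A ∧ IsSum mem w z x a) →
    Meager mem w C S

/-- `F` is a family of meager-additive sets whose union is not meager-additive -/
def AddW (w C F : M) : Prop :=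
  (∀ X, mem X F → MAdd mem w C X) ∧
    ∃ S, (∀ z, mem z S ↔ ∃ X, mem X F ∧ mem z X) ∧ ¬ MAdd mem w C S

/-- `X ⊆ C` is not meager-additive -/
def NonW (w C X : M) : Prop := IsSub mem X C ∧ ¬ MAdd mem w C X

/-- `F` is a family of meager-additive sets that covers `C` -/
def CovW (w C F : M) : Prop :=
  (∀ X, mem X F → MAdd mem w C X) ∧ ∀ z, mem z C → ∃ X, mem X F ∧ mem z X

/-- `F` is a family of meager-additive sets cofinal among the meager-additive sets -/
def CofW (w C F : M) : Prop :=
  (∀ X, mem X F → MAdd mem w C X) ∧ ∀ Y, MAdd mem w C Y → ∃ X, mem X F ∧ IsSub mem Y X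

/-- `a` has property `W` and has the least size among the sets with property `W` -/
def IsLeastSize (W : M → Prop) (a : M) : Prop := W a ∧ ∀ b, W b → LeCard mem a b

/-- `|a| < |b|` -/
def LtCard (a b : M) : Prop := LeCard mem a b ∧ ¬ LeCard mem b a

end Pool.Agent.P.MP_0c5c88_lc
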