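import Pool.Agent.P.MP_0c5c88_lc.Defs2
import Pool.Agent.P.MP_95b5c3_gt.Lit

set_option autoImplicit false
set_option synthInstance.maxSize 4000

/-! The notions of the problem are given by formulas. -/

open Pool.Agent.Lib.PosetForcing Pool.Agent.P.MP_95b5c3_gt.Lit

namespace Pool.Agent.P.MP_0c5c88_lc.Lit

universe v

instance ud_isPow (i j : ℕ) : UD.{v} fun _ mem v => IsPow mem (v i) (v j) := by
  unfold IsPow; infer_instance

instance ud_agreeTo (i j k : ℕ) : UD.{v} fun _ mem v => AgreeTo mem (v i) (v j) (v k) := by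
  unfold AgreeTo; infer_instance

instance ud_nwd (i j k : ℕ) : UD.{v} fun _ mem v => Nwd mem (v i) (v j) (v k) := by
  unfold Nwd; infer_instance

instance ud_meager (i j k : ℕ) : UD.{v} fun _ mem v => Meager mem (v i) (v j) (v k) := by
  unfold Meager; infer_instance

instance ud_isSum (i j k l : ℕ) : UD.{v} fun _ mem v => IsSum mem (v i) (v j) (v k) (v l) := by
  unfold IsSum; infer_instance

instance ud_mAdd (i j k : ℕ) : UD.{v} fun _ mem v => MAdd mem (v i) (v j) (v k) := by
  unfold MAdd; infer_instance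

instance ud_ltCard (i j : ℕ) : UD.{v} fun _ mem v => LtCard mem (v i) (v j) := by
  unfold LtCard; infer_instance

instance ud_eqCard (i j : ℕ) : UD.{v} fun _ mem v => EqCard mem (v i) (v j) := by
  unfold EqCard; infer_instance

instance ud_add (i j : ℕ) :
    UD.{v} fun _ mem v => IsLeastSize mem (AddI mem (v i)) (v j) := by
  unfold IsLeastSize AddI; infer_instance

instance ud_non (i j k : ℕ) :
    UD.{v} fun _ mem v => IsLeastSize mem (NonI mem (v i) (v j)) (v k) := by
  unfold IsLeastSize NonI; infer_instance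

instance ud_cov (i j k : ℕ) :
    UD.{v} fun _ mem v => IsLeastSize mem (CovI mem (v i) (v j)) (v k) := by
  unfold IsLeastSize CovI; infer_instance

instance ud_cof (i j : ℕ) :
    UD.{v} fun _ mem v => IsLeastSize mem (CofI mem (v i)) (v j) := by
  unfold IsLeastSize CofI; infer_instance

/-- the chain of the problem -/
def Chain (M : Type v) (mem : M → M → Prop) : Prop :=
  ∃ w C I a n c f : M, IsOmega mem w ∧ IsPow mem C w ∧ (∀ X, mem X I ↔ MAdd mem w C X) ∧
    IsLeastSize mem (AddI mem I) a ∧ IsLeastSize mem (NonI mem C I) n ∧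
    IsLeastSize mem (CovI mem C I) c ∧ IsLeastSize mem (CofI mem I) f ∧
    LtCard mem a n ∧ LtCard mem n c ∧ LtCard mem c f

/-- additivity and uniformity of the meager-additive sets are equal -/
def AddNon (M : Type v) (mem : M → M → Prop) : Prop :=
  ∀ w C I a n : M, IsOmega mem w → IsPow mem C w → (∀ X, mem X I ↔ MAdd mem w C X) →
    IsLeastSize mem (AddI mem I) a → IsLeastSize mem (NonI mem C I) n → EqCard mem a n

instance ud_chain : UD.{v} fun M mem _ => Chain M mem := by
  unfold Chain; infer_instance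

instance ud_addNon : UD.{v} fun M mem _ => AddNon M mem := by
  unfold AddNon; infer_instance

section
variable {M : Type} (mem : M → M → Prop)

theorem le_lift (a b : M) :
    LeCard (fun a b : ULift.{v} M => mem a.down b.down) ⟨a⟩ ⟨b⟩ ↔ LeCard mem a b := by
  simp only [LeCard, IsInj, IsFun, IsFunOn, App, IsPair, IsUPair, ULift.forall, ULift.exists,
    ULift.up.injEq]

theorem meager_lift (a b c : M) :
    Meager (fun a b : ULift.{v} M => mem a.down b.down) ⟨a⟩ ⟨b⟩ ⟨c⟩ ↔ Meager mem a b c := by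
  simp only [Meager, IsSub, Nwd, AgreeTo, ULift.forall, ULift.exists, le_lift]

theorem mAdd_lift (a b c : M) :
    MAdd (fun a b : ULift.{v} M => mem a.down b.down) ⟨a⟩ ⟨b⟩ ⟨c⟩ ↔ MAdd mem a b c := by
  simp only [MAdd, IsSub, IsSum, ULift.forall, ULift.exists, meager_lift]

end

theorem chain_lift (M : Type) (mem : M → M → Prop) :
    Chain (ULift.{v} M) (fun a b => mem a.down b.down) ↔ Chain M mem := by
  simp only [Chain, IsOmega, IsInductive, IsSucc, IsPow, IsSub, IsLeastSize, AddI, NonI, CovI, CofI,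
    LtCard, ULift.forall, ULift.exists, ULift.up.injEq, le_lift, mAdd_lift]

theorem addNon_lift (M : Type) (mem : M → M → Prop) :
    AddNon (ULift.{v} M) (fun a b => mem a.down b.down) ↔ AddNon M mem := by
  simp only [AddNon, IsOmega, IsInductive, IsSucc, IsPow, IsSub, IsLeastSize, AddI, NonI,
    EqCard, ULift.forall, ULift.exists, ULift.up.injEq, le_lift, mAdd_lift]

theorem literal {N : Type v} {mem' : N → N → Prop} (hN : IsZFC mem') (h : Chain N mem') :
    (∃ φ, ∀ (M : Type) (mem : M → M → Prop), IsZFC mem → ∀ v, Sat mem φ v ↔ Chain M mem) ∧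
      ∀ φ, (∀ (M : Type) (mem : M → M → Prop), IsZFC mem → ∀ v, Sat mem φ v ↔ Chain M mem) →
        Con (insert φ {χ | ZFC χ}) := by
  obtain ⟨⟨ψ, hψ⟩, g⟩ := not_prov (P := fun M mem => ¬ Chain M mem)
    (Q := fun M mem => ¬ Chain M mem) (fun M mem => not_congr (chain_lift M mem)) hN
    (not_not.2 h)
  refine ⟨⟨.neg ψ, fun M mem hM v => (not_congr (hψ M mem hM v)).trans not_not⟩, fun φ hφ => ?_⟩
  obtain ⟨M, mem, ⟨x⟩, hM⟩ :=
    (con_iff _).1 (g (.neg φ) fun M mem hM v => not_congr (hφ M mem hM v)).2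
  refine con_of (mem := mem) x fun χ hχ u => ?_
  rcases hχ with rfl | hχ
  · exact not_not.1 (hM _ (Or.inl rfl) u)
  · exact hM χ (Or.inr hχ) u

theorem add_non {N : Type v} {mem' : N → N → Prop} (hN : IsZFC mem') (h : Chain N mem') :
    (∃ φ, ∀ (M : Type) (mem : M → M → Prop), IsZFC mem → ∀ v, Sat mem φ v ↔ AddNon M mem) ∧
      ∀ φ, (∀ (M : Type) (mem : M → M → Prop), IsZFC mem → ∀ v, Sat mem φ v ↔ AddNon M mem) →
        ¬ Prov {χ | ZFC χ} φ := by
  obtain ⟨w, C, I, a, n, c, f, h1, h2, h3, h4, h5, -, -, h6, -⟩ := h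
  obtain ⟨g, g'⟩ := not_prov addNon_lift hN fun g => h6.2 (g w C I a n h1 h2 h3 h4 h5).2
  exact ⟨g, fun φ hφ => (g' φ hφ).1⟩

end Pool.Agent.P.MP_0c5c88_lc.Lit
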