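import Pool.Agent.P.MP_0c5c88_lc.Sem1

set_option autoImplicit false

/-! Witnesses of least size in the quotient models. -/

open Pool.Agent.Lib.PosetForcing Cardinal

namespace Pool.Agent.P.MP_0c5c88_lc

variable {P : Type} [Preorder P]

/-- below `p`, the elements of `a` are among at most `κ` names -/
def Cov (κ : Cardinal.{0}) (p : P) (a : Name P) : Prop :=
  ∃ ι : Type, #ι ≤ κ ∧ ∃ d : ι → Name P, ∀ x : Name P, ∀ q ≤ p,
    (Forces q fun U => Mod.mem (x.val U) (a.val U)) →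
      ∃ r ≤ q, ∃ i, Forces r fun U => x.val U = (d i).val U

theorem cov_self (p : P) (a : Name P) : Cov #a.idx p a :=
  ⟨a.idx, le_rfl, a.el, fun _ _ _ h => by
    obtain ⟨r, hr, i, -, hi⟩ := h.exists_el
    exact ⟨r, hr, i, hi⟩⟩

variable [OrderTop P]

theorem cov_fam {ι : Type} {κ : Cardinal.{0}} (h : #ι ≤ κ) (d : ι → Name P) (p : P) :
    Cov κ p (fam d) := ⟨ι, h, d, fun _ _ _ h => h.exists_fam⟩

theorem Cov.of_le {κ : Cardinal.{0}} {p : P} {a b : Name P} (hb : Cov κ p b)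
    (h : Forces p fun U => LeCard Mod.mem (a.val U) (b.val U)) : Cov κ p a := by
  obtain ⟨ι, h1, d, h2⟩ := hb
  obtain ⟨j, hj⟩ := Forces.exists_name h
  choose d' hd' using fun i => max_principle fun (U : Gen P) x =>
    App Mod.mem (j.val U) x ((d i).val U)
  refine ⟨ι, h1, d', fun x q hq hx => ?_⟩
  obtain ⟨y, hy⟩ := Forces.exists_name (((hj.mono hq).and hx).imp fun U h => h.1.1.2.1 _ h.2)
  obtain ⟨r, hr, i, hi⟩ := h2 y q hq (((hj.mono hq).and hy).imp
    fun U h => ((isZFC U).app_val h.1.1 h.2).2)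
  refine ⟨r, hr, i, fun U hU => ?_⟩
  have g1 := fapp hy hr hU
  rw [fapp hi le_rfl hU] at g1
  exact (fapp hj (hr.trans hq) hU).2 _ _ _ g1 (hd' i U ⟨_, g1⟩)

theorem exists_least (W : ∀ U : Gen P, Mod U → Prop) [∀ a : Name P, Clopen fun U => W U (a.val U)]
    (U : Gen P) (h : ∃ x, W U x) : ∃ a, IsLeastSize Mod.mem (W U) a := by
  unfold IsLeastSize
  revert h
  refine of_forces_all (Φ := fun U => (∃ x, W U x) → ∃ a, W U a ∧ ∀ b, W U b → LeCard Mod.mem a b)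
    (fun p => ⟨p, le_rfl, forces_imp fun q _ hq => ?_⟩) U
  obtain ⟨a0, ha0⟩ := hq.exists_name
  obtain ⟨κ, ⟨r, hr, a, ha, ι, hι, d, hd⟩, hmin⟩ := (wellFounded_lt (α := Cardinal.{0})).has_min
    {κ | ∃ r ≤ q, ∃ a : Name P, (Forces r fun U => W U (a.val U)) ∧ Cov κ r a}
    ⟨_, q, le_rfl, a0, ha0, cov_self q a0⟩
  suffices h : Forces r fun U => ∀ b, W U b → LeCard Mod.mem (a.val U) b from
    ⟨r, hr, (ha.and h).imp fun U h => ⟨_, h⟩⟩
  refine forces_forall fun b => forces_imp fun s hs hb => ⟨s, le_rfl, ?_⟩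
  have h1 : ∀ (Z : Type) (_ : #Z < κ) (e : Z → Name P), ∃ g : Name P,
      Forces s fun U => Mod.mem (g.val U) (b.val U) ∧ ¬ Mod.mem (g.val U) ((fam e).val U) := by
    intro Z hZ e
    refine Forces.exists_name
      (Φ := fun U g => Mod.mem g (b.val U) ∧ ¬ Mod.mem g ((fam e).val U)) ?_
    by_contra h2
    obtain ⟨t, ht, h3⟩ := exists_forces_not h2
    refine hmin _ ⟨t, ht.trans (hs.trans hr), b, hb.mono ht, Z, le_rfl, e, fun x t' ht' hx => ?_⟩ hZ
    exact Forces.exists_fam (((h3.mono ht').and hx).imp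
      fun U h => by_contra fun h4 => h.1 ⟨_, h.2, h4⟩)
  choose g hg using h1
  obtain ⟨e⟩ : Nonempty (ι ↪ κ.ord.ToType) := by rwa [← Cardinal.le_def, mk_ord_toType]
  have hwf : WellFounded fun μ ν => e μ < e ν := InvImage.wf e wellFounded_lt
  have hsm : ∀ ν, #{μ // e μ < e ν} < κ := fun ν => (mk_le_of_injective
    (f := fun μ => (⟨e μ.1, μ.2⟩ : Set.Iio (e ν)))
    fun μ μ' h => Subtype.ext (e.injective (congrArg Subtype.val h))).trans_lt
      ((mk_Iio_lt (e ν) (by simp)).trans_le (mk_ord_toType κ).le)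
  let dn : ι → Name P := hwf.fix fun ν ih => g {μ // e μ < e ν} (hsm ν) fun μ => ih μ.1 μ.2
  have hdn : ∀ ν, dn ν = g {μ // e μ < e ν} (hsm ν) fun μ => dn μ.1 := fun ν => hwf.fix_eq _ ν
  have hlt : ∀ μ ν, e μ < e ν → ∀ t ≤ s, ¬ Forces t fun U => (dn μ).val U = (dn ν).val U := by
    intro μ ν hμ t ht h2
    refine Forces.not_false (p := t) fun U hU => ?_
    have h3 := (fapp (hg _ (hsm ν) fun μ => dn μ.1) ht hU).2
    rw [← hdn ν, ← h2 U hU] at h3
    exact h3 (mem_fam (fun μ : {μ // e μ < e ν} => dn μ.1) ⟨μ, hμ⟩ U)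
  refine forces_leCard d dn (fun x t ht => hd x t (ht.trans hs))
    (fun ν => hdn ν ▸ (hg _ (hsm ν) _).imp fun U h => h.1) fun μ ν hne t ht h => ?_
  rcases lt_trichotomy (e μ) (e ν) with h1 | h1 | h1
  · exact hlt μ ν h1 t ht h
  · exact hne (e.injective h1)
  · exact hlt ν μ h1 t ht (h.imp fun _ h => h.symm)

theorem leCard_total {U : Gen P} (a b : Mod U) : LeCard Mod.mem a b ∨ LeCard Mod.mem b a := by
  obtain ⟨a, rfl⟩ := a.exists_name
  obtain ⟨b, rfl⟩ := b.exists_name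
  obtain ⟨x, h1, h2⟩ := exists_least (fun U x => x = a.val U ∨ x = b.val U) U ⟨_, Or.inl rfl⟩
  rcases h1 with rfl | rfl
  · exact Or.inl (h2 _ (Or.inr rfl))
  · exact Or.inr (h2 _ (Or.inl rfl))

theorem ltCard_of {U : Gen P} {a b : Mod U} (h : ¬ LeCard Mod.mem b a) : LtCard Mod.mem a b :=
  ⟨(leCard_total a b).resolve_right h, h⟩

end Pool.Agent.P.MP_0c5c88_lc
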