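import Pool.Agent.P.MP_0c5c88_lc.Big
import Pool.Agent.P.MP_0c5c88_lc.MinW

set_option autoImplicit false

/-! The four cardinal characteristics in the extension. -/

open Pool.Agent.Lib.PosetForcing Cardinal

namespace Pool.Agent.P.MP_0c5c88_lc

theorem mAdd_of_cov {p : PP} {X : Name PP} (h : Cov ℵ₁ p X)
    (h' : Forces p fun U => IsSub Mod.mem (X.val U) (cN.val U)) :
    Forces p fun U => MAdd Mod.mem (wN.val U) (cN.val U) (X.val U) := by
  obtain ⟨ι, h1, d, h2⟩ := h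
  choose r β r1 b1 h3 using fun i => exists_codedAt (d i)
  obtain ⟨r', -, r2, r3⟩ := Rnd.bound (Set.range r) (mk_range_le.trans (h1.trans k1_lt.le))
  obtain ⟨β', -, b2, b3⟩ := Row.bound (Set.range β) (mk_range_le.trans h1)
  refine mAdd_of_coded r2 b2 h' fun x q hq hx => ?_
  obtain ⟨q', g1, i, g2⟩ := h2 x q hq hx
  exact ⟨q', g1, _, (h3 i).mono (r3 _ ⟨i, rfl⟩ (r1 i)).le (b3 _ ⟨i, rfl⟩ (b1 i)).le, g2⟩

theorem not_covW {p : PP} {F : Name PP} (h : Cov k2 p F) :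
    ¬ Forces p fun U => CovW Mod.mem (wN.val U) (cN.val U) (F.val U) := by
  intro h'
  obtain ⟨ι, h1, d, h2⟩ := h
  choose N N1 N2 using fun i => meager_code (d i)
  choose ν n1 n2 using fun i => exists_code (W := Works (N i)) (works_dense (N1 i))
  choose r β r1 b1 h3 using fun i => exists_within (n2 i)
  obtain ⟨r', -, r2, r3⟩ := Rnd.bound (Set.range r) (mk_range_le.trans h1)
  let x : Co := ⟨r', ⊥, Classical.arbitrary Z, ∅⟩
  obtain ⟨X, hX⟩ := Forces.exists_name (h'.imp fun U h => h.2 _ (rname_mem x U))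
  obtain ⟨q, g1, i, g2⟩ := h2 X p le_rfl (hX.imp fun U h => h.1)
  obtain ⟨q', g3, n, g4⟩ := N2 i (rname x) q fun U hU => by
    beta_reduce
    rw [← fapp g2 le_rfl hU]
    exact ⟨meager_of_mAdd ((fapp h' g1 hU).1 _ (fapp hX g1 hU).1), (fapp hX g1 hU).2⟩
  obtain ⟨s, g5, g, ⟨b, u⟩, g6, g7⟩ := (n1 i).2 q' (max n (q'.1 x).t)
  obtain ⟨s', k1, k2, -, k3⟩ := glue (r0 := r') q'.2 (leR.mono g5 le_top le_rfl)
  obtain ⟨t, k4, k5, -⟩ := exists_pext k1.refl (Set.finite_singleton x) (fun _ => b) fun _ => u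
  obtain ⟨hg, k6⟩ := (n1 i).1 g _ _ g6
  have k7 : leR ⊤ ⊤ t g := le_of_within k4.refl
    ((k4.mono le_top le_rfl).trans (k2.trans (g7.mono le_top le_rfl)))
    ((h3 i).mono (r3 _ ⟨i, rfl⟩ (r1 i)).le le_top g _ _ g6)
  obtain ⟨U, hU⟩ := exists_gen (P := PP) ⟨t, k4.refl⟩
  have k8 : t x = pext (q'.1 x) b u := by rw [k5 x rfl, k3 x le_rfl]
  exact fapp k6 k7 hU _ (rname_mem x U) (forces_agr (d := x) r2 row_bot_lt
    (by rw [k8]; exact le_max_right _ _)
    (fun m m1 _ => by rw [k8]; exact mem_pext ((le_max_right _ _).trans m1)) U hU)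
    n (Nat.lt_succ_of_le (le_max_left _ _)) (fapp g4 (k4.trans k1) hU)

theorem not_cofW {p : PP} {F : Name PP} (h : Cov k3 p F) :
    ¬ Forces p fun U => CofW Mod.mem (wN.val U) (cN.val U) (F.val U) := by
  intro h'
  obtain ⟨ι, h1, d, h2⟩ := h
  have : ∀ z : Z, ∃ i, ∃ q : PP, Forces q fun U => Meager Mod.mem (wN.val U) (cN.val U)
      ((d i).val U) ∧ IsSub Mod.mem ((XN z).val U) ((d i).val U) := by
    intro z
    obtain ⟨X, hX⟩ := Forces.exists_name (h'.imp fun U h => h.2 _ (mAdd_XN z U))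
    obtain ⟨q, g1, i, g2⟩ := h2 X p le_rfl (hX.imp fun U h => h.1)
    refine ⟨i, q, fun U hU => ?_⟩
    beta_reduce
    rw [← fapp g2 le_rfl hU]
    exact ⟨meager_of_mAdd ((fapp h' g1 hU).1 _ (fapp hX g1 hU).1), (fapp hX g1 hU).2⟩
  choose f q hq using this
  have : Uncountable Z := by
    rw [← aleph0_lt_mk_iff, mk_Z]
    exact k3_inf.trans_lt k3_lt
  obtain ⟨i, hi⟩ := exists_uncountable_fiber f (h1.trans_lt (mk_Z ▸ k3_lt))
  exact big (I := f ⁻¹' {i}) (fun h => not_countable h.to_subtype) Function.injective_id (d i) q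
    fun z hz => (show f z = i from hz) ▸ hq z

/-- the first uncountable cardinal as a type -/
def W1 : Type := (ℵ₁ : Cardinal.{0}).out

theorem mk_W1 : #W1 = ℵ₁ := mk_out _

theorem exists_emb : Nonempty (W1 ↪ Z) := by
  rw [← Cardinal.le_def, mk_W1, mk_Z]
  exact k1_lt.le.trans (k2_lt.le.trans k3_lt.le)

/-- the witness for additivity -/
noncomputable def A0 : Name PP := fam fun ξ : W1 => XN (exists_emb.some ξ)

theorem not_mAdd_union (U : Gen PP) :
    ¬ MAdd Mod.mem (wN.val U) (cN.val U) ((unionName A0).val U) := by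
  intro h
  obtain ⟨p, hp⟩ := Ultrafilter.nonempty_of_mem (truth
    (Φ := fun U : Gen PP => MAdd Mod.mem (wN.val U) (cN.val U) ((unionName A0).val U)) h)
  have : Uncountable W1 := by
    rw [← aleph0_lt_mk_iff, mk_W1]
    exact aleph0_lt_aleph_one
  exact big Set.not_countable_univ exists_emb.some.injective (unionName A0) (fun _ => p)
    fun ξ _ => Forces.imp hp fun U h => ⟨meager_of_mAdd h, fun x hx => (mem_unionName _ U x).2
      ⟨_, mem_fam (fun ξ : W1 => XN (exists_emb.some ξ)) ξ U, hx⟩⟩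

theorem mAdd_A0 (U : Gen PP) : ∀ X, Mod.mem X (A0.val U) → MAdd Mod.mem (wN.val U) (cN.val U) X :=
  forall_mem_fam (Φ := fun U X => MAdd Mod.mem (wN.val U) (cN.val U) X) (fun _ U => mAdd_XN _ U) U

theorem addW_A0 (U : Gen PP) : AddW Mod.mem (wN.val U) (cN.val U) (A0.val U) :=
  ⟨mAdd_A0 U, _, mem_unionName A0 U, not_mAdd_union U⟩

theorem nonW_union (U : Gen PP) : NonW Mod.mem (wN.val U) (cN.val U) ((unionName A0).val U) := by
  refine ⟨fun x hx => ?_, not_mAdd_union U⟩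
  obtain ⟨X, h1, h2⟩ := (mem_unionName _ U x).1 hx
  exact (mAdd_A0 U X h1).1 x h2

theorem cov_union (p : PP) : Cov k2 p (unionName A0) := by
  refine ⟨W1 × {α : Row // α < ⊤}, ?_, fun x => rname (xc (exists_emb.some x.1) x.2.1),
    fun x q _ hx => ?_⟩
  · rw [mk_prod, lift_id, lift_id, mk_W1]
    exact (mul_le_mul' k1_lt.le ((mk_subtype_le _).trans (mk_Lv_le k2_inf))).trans
      (mul_eq_self k2_inf).le
  · obtain ⟨X, hX⟩ := Forces.exists_name (hx.imp fun U h => (mem_unionName _ U _).1 h)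
    obtain ⟨r, h1, ξ, h2⟩ := (hX.imp fun U h => h.1).exists_fam
    obtain ⟨s, h3, α, h4⟩ := Forces.exists_fam (a := x)
      (((hX.mono h1).and h2).imp fun U h => h.2 ▸ h.1.2)
    exact ⟨s, h3.trans h1, (ξ, α), h4⟩

/-- the witness for covering -/
noncomputable def C0 : Name PP :=
  fam fun x : {r : Rnd // r < ⊤} × {β : Row // β < ⊤} => YN x.1.1 x.2.1

theorem covW_C0 (U : Gen PP) : CovW Mod.mem (wN.val U) (cN.val U) (C0.val U) := by
  refine ⟨forall_mem_fam (Φ := fun U X => MAdd Mod.mem (wN.val U) (cN.val U) X)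
    (fun x U => mAdd_YN x.1.2 x.2.2 U) U, fun z hz => ?_⟩
  obtain ⟨z, rfl⟩ := z.exists_name
  obtain ⟨S, -, hS⟩ := (ccc_LP ⊤ ⊤).exists_niceReal z
  obtain ⟨r, β, h1, h2, h3⟩ := exists_codedAt (niceReal S)
  rw [hS U (mem_cN.1 hz)]
  exact ⟨_, mem_fam (fun x : {r : Rnd // r < ⊤} × {β : Row // β < ⊤} => YN x.1.1 x.2.1)
    (⟨r, h1⟩, ⟨β, h2⟩) U, mem_fam (fun S : {S : Set (PP × ULift.{0} ℕ) //
      CodedAt r β (niceReal S)} => niceReal S.1) ⟨S, h3⟩ U⟩

theorem cov_C0 (p : PP) : Cov k3 p C0 := by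
  refine cov_fam ?_ _ p
  rw [mk_prod, lift_id, lift_id]
  exact (mul_le_mul' ((mk_subtype_le _).trans (mk_Lv_le k3_inf))
    ((mk_subtype_le _).trans ((mk_Lv_le k2_inf).trans k2_lt.le))).trans (mul_eq_self k3_inf).le

theorem exists_cofW (U : Gen PP) : ∃ F, CofW Mod.mem (wN.val U) (cN.val U) F := by
  have h := mem_sepName (powName cN) (fun U X => MAdd Mod.mem (wN.val U) (cN.val U) X) U
  exact ⟨_, fun X hX => ((h X).1 hX).2,
    fun Y hY => ⟨Y, (h Y).2 ⟨(mem_powName _ U Y).2 hY.1, hY⟩, fun _ h => h⟩⟩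

theorem main (U : Gen PP) : ∃ a n c f : Mod U,
    IsLeastSize Mod.mem (AddW Mod.mem (wN.val U) (cN.val U)) a ∧
    IsLeastSize Mod.mem (NonW Mod.mem (wN.val U) (cN.val U)) n ∧
    IsLeastSize Mod.mem (CovW Mod.mem (wN.val U) (cN.val U)) c ∧
    IsLeastSize Mod.mem (CofW Mod.mem (wN.val U) (cN.val U)) f ∧
    LtCard Mod.mem a n ∧ LtCard Mod.mem n c ∧ LtCard Mod.mem c f := by
  obtain ⟨a, ha⟩ := exists_least (fun U => AddW Mod.mem (wN.val U) (cN.val U)) U ⟨_, addW_A0 U⟩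
  obtain ⟨n, hn⟩ := exists_least (fun U => NonW Mod.mem (wN.val U) (cN.val U)) U ⟨_, nonW_union U⟩
  obtain ⟨c, hc⟩ := exists_least (fun U => CovW Mod.mem (wN.val U) (cN.val U)) U ⟨_, covW_C0 U⟩
  obtain ⟨f, hf⟩ := exists_least (fun U => CofW Mod.mem (wN.val U) (cN.val U)) U (exists_cofW U)
  refine ⟨a, n, c, f, ha, hn, hc, hf, ltCard_of fun h => ?_, ltCard_of fun h => ?_,
    ltCard_of fun h => ?_⟩
  · obtain ⟨a, rfl⟩ := a.exists_name
    obtain ⟨n, rfl⟩ := n.exists_name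
    obtain ⟨p, hp⟩ := Ultrafilter.nonempty_of_mem (truth (Φ := fun U : Gen PP =>
      LeCard Mod.mem (n.val U) (a.val U) ∧ LeCard Mod.mem (a.val U) (A0.val U) ∧
        NonW Mod.mem (wN.val U) (cN.val U) (n.val U)) ⟨h, ha.2 _ (addW_A0 U), hn.1⟩)
    have h1 := mAdd_of_cov (((cov_fam mk_W1.le _ p).of_le (Forces.imp hp fun _ h => h.2.1)).of_le
      (Forces.imp hp fun _ h => h.1)) (Forces.imp hp fun _ h => h.2.2.1)
    exact Forces.not_false ((h1.and hp).imp fun _ h => h.2.2.2.2 h.1)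
  · obtain ⟨c, rfl⟩ := c.exists_name
    obtain ⟨n, rfl⟩ := n.exists_name
    obtain ⟨p, hp⟩ := Ultrafilter.nonempty_of_mem (truth (Φ := fun U : Gen PP =>
      LeCard Mod.mem (c.val U) (n.val U) ∧ LeCard Mod.mem (n.val U) ((unionName A0).val U) ∧
        CovW Mod.mem (wN.val U) (cN.val U) (c.val U)) ⟨h, hn.2 _ (nonW_union U), hc.1⟩)
    exact not_covW (((cov_union p).of_le (Forces.imp hp fun _ h => h.2.1)).of_le
      (Forces.imp hp fun _ h => h.1)) (Forces.imp hp fun _ h => h.2.2)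
  · obtain ⟨c, rfl⟩ := c.exists_name
    obtain ⟨f, rfl⟩ := f.exists_name
    obtain ⟨p, hp⟩ := Ultrafilter.nonempty_of_mem (truth (Φ := fun U : Gen PP =>
      LeCard Mod.mem (f.val U) (c.val U) ∧ LeCard Mod.mem (c.val U) (C0.val U) ∧
        CofW Mod.mem (wN.val U) (cN.val U) (f.val U)) ⟨h, hc.2 _ (covW_C0 U), hf.1⟩)
    exact not_cofW (((cov_C0 p).of_le (Forces.imp hp fun _ h => h.2.1)).of_le
      (Forces.imp hp fun _ h => h.1)) (Forces.imp hp fun _ h => h.2.2)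

end Pool.Agent.P.MP_0c5c88_lc
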