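import Pool.Agent.P.MP_0c5c88_lc.Defs
import Pool.Agent.Lib.PosetForcing.Card

set_option autoImplicit false

/-! Meager sets in the quotient models of an arbitrary preorder. -/

open Pool.Agent.Lib.PosetForcing

namespace Pool.Agent.P.MP_0c5c88_lc

variable {P : Type} [Preorder P]

theorem fapp {p q : P} {Φ : Gen P → Prop} (h : Forces p Φ) (hq : q ≤ p) {U : Gen P}
    (hU : Set.Iic q ∈ U.1) : Φ U := h.mono hq U hU

instance clopen_forall_lt (n : ℕ) (Φ : ℕ → Gen P → Prop) [∀ m, Clopen (Φ m)] :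
    Clopen fun U => ∀ m < n, Φ m U :=
  Clopen.congr (Φ := fun U => ¬ ∃ m < n, ¬ Φ m U) fun U => by simp

instance clopen_agreeTo (a b c : Name P) :
    Clopen fun U : Gen P => AgreeTo Mod.mem (a.val U) (b.val U) (c.val U) := by
  unfold AgreeTo; infer_instance

instance clopen_nwd (a b c : Name P) :
    Clopen fun U : Gen P => Nwd Mod.mem (a.val U) (b.val U) (c.val U) := by
  unfold Nwd; infer_instance

instance clopen_meager (a b c : Name P) :
    Clopen fun U : Gen P => Meager Mod.mem (a.val U) (b.val U) (c.val U) := by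
  unfold Meager; infer_instance

instance clopen_isSum (a b c d : Name P) :
    Clopen fun U : Gen P => IsSum Mod.mem (a.val U) (b.val U) (c.val U) (d.val U) := by
  unfold IsSum; infer_instance

instance clopen_mAdd (a b c : Name P) :
    Clopen fun U : Gen P => MAdd Mod.mem (a.val U) (b.val U) (c.val U) := by
  unfold MAdd; infer_instance

instance clopen_addW (a b c : Name P) :
    Clopen fun U : Gen P => AddW Mod.mem (a.val U) (b.val U) (c.val U) := by
  unfold AddW; infer_instance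

instance clopen_nonW (a b c : Name P) :
    Clopen fun U : Gen P => NonW Mod.mem (a.val U) (b.val U) (c.val U) := by
  unfold NonW; infer_instance

instance clopen_covW (a b c : Name P) :
    Clopen fun U : Gen P => CovW Mod.mem (a.val U) (b.val U) (c.val U) := by
  unfold CovW; infer_instance

instance clopen_cofW (a b c : Name P) :
    Clopen fun U : Gen P => CofW Mod.mem (a.val U) (b.val U) (c.val U) := by
  unfold CofW; infer_instance

variable [OrderTop P]

/-- the name of `ω` -/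
abbrev wN : Name P := omegaName

/-- the name of Cantor space -/
def cN : Name P := powName omegaName

theorem mem_cN {U : Gen P} {x : Mod U} : Mod.mem x (cN.val U) ↔ IsSub Mod.mem x (wN.val U) :=
  mem_powName _ U x

/-- `m ∈ z` -/
abbrev Bit (U : Gen P) (m : ℕ) (z : Mod U) : Prop := Mod.mem ((natName m).val U) z

/-- the name of a finite set of natural numbers -/
def finName (s : Finset ℕ) : Name P := fam fun i : s => natName i.1

theorem bit_finName {s : Finset ℕ} {m : ℕ} {U : Gen P} : Bit U m ((finName s).val U) ↔ m ∈ s := by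
  refine ⟨fun h => ?_, fun h => mem_fam (fun i : s => natName i.1) ⟨m, h⟩ U⟩
  exact forall_mem_fam (A := fun i : s => natName i.1)
    (Φ := fun (U : Gen P) x => x = (natName (P := P) m).val U → m ∈ s)
    (fun i U e => natName_inj e ▸ i.2) U _ h rfl

theorem finName_mem (s : Finset ℕ) (U : Gen P) : Mod.mem ((finName s).val U) (cN.val U) :=
  mem_cN.2 (forall_mem_fam (Φ := fun U x => Mod.mem x (wN.val U))
    (fun _ U => natName_mem_omega _ U) U)

/-- `z` has the pattern `u` on `[a, b)` -/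
def Agr (a b : ℕ) (u : Finset ℕ) (U : Gen P) (z : Mod U) : Prop :=
  ∀ m < b, a ≤ m → (Bit U m z ↔ m ∈ u)

instance clopen_agr (a b : ℕ) (u : Finset ℕ) (z : Name P) :
    Clopen fun U : Gen P => Agr a b u U (z.val U) := by
  unfold Agr; infer_instance

theorem decide_agr (x : Name P) (q : P) (k : ℕ) :
    ∃ r ≤ q, ∃ s, Forces r fun U => Agr 0 k s U (x.val U) := by
  obtain ⟨r, hr, b, hb⟩ := exists_decide_lt k (fun m U => Bit U m (x.val U)) q
  exact ⟨r, hr, (Finset.range k).filter fun m => b m = true, fun U hU m hm _ => by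
    rw [fapp (hb m hm) le_rfl hU]; simp [hm]⟩

theorem decide_nat {k : Name P} {q : P} (h : Forces q fun U => Mod.mem (k.val U) (wN.val U)) :
    ∃ r ≤ q, ∃ n : ℕ, Forces r fun U => k.val U = (natName n).val U := by
  obtain ⟨r, hr, n, hn⟩ := h.exists_fam
  exact ⟨r, hr, n.down, hn⟩

theorem agreeTo_iff {U : Gen P} {x y : Mod U} {k : ℕ} :
    AgreeTo Mod.mem x y ((natName k).val U) ↔ ∀ m < k, (Bit U m x ↔ Bit U m y) := by
  constructor
  · exact fun h m hm => h _ (natName_mem hm U)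
  · intro h z hz
    obtain ⟨m, hm, rfl⟩ := (mem_natName U z).1 hz
    exact h m hm

theorem nwd_of {N : Name P} (h : ∀ (q : P) (k : ℕ) (s : Finset ℕ), ∃ r ≤ q, ∃ (l : ℕ) (u : Finset ℕ),
    (∀ m < k, (m ∈ u ↔ m ∈ s)) ∧ Forces r fun U => ∀ z, Mod.mem z (cN.val U) → Agr 0 l u U z →
      ¬ Mod.mem z (N.val U)) (U : Gen P) : Nwd Mod.mem (wN.val U) (cN.val U) (N.val U) := by
  refine of_forces_all (Φ := fun U => Nwd Mod.mem (wN.val U) (cN.val U) (N.val U))
    (fun p => ⟨p, le_rfl, ?_⟩) U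
  unfold Nwd
  refine forces_forall fun x => forces_imp fun q _ _ => ⟨q, le_rfl,
    forces_forall fun k => forces_imp fun r _ hk => ?_⟩
  obtain ⟨r1, h1, n, h2⟩ := decide_nat hk
  obtain ⟨r2, h3, s, h4⟩ := decide_agr x r1 n
  obtain ⟨r3, h5, l, u, h6, h7⟩ := h r2 n s
  refine ⟨r3, h5.trans (h3.trans h1), fun U hU => ⟨_, finName_mem u U, _, natName_mem_omega l U,
    ?_, fun z hz hz' => h7 U hU z hz fun m hm _ => ?_⟩⟩
  · rw [fapp h2 (h5.trans h3) hU, agreeTo_iff]
    intro m hm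
    rw [h4.mono h5 U hU m hm (Nat.zero_le _), bit_finName, h6 m hm]
  · rw [← agreeTo_iff.1 hz' m hm, bit_finName]

theorem nwd_elim {N : Name P} (h : ∀ U, Nwd Mod.mem (wN.val U) (cN.val U) (N.val U)) (q : P)
    (k : ℕ) (s : Finset ℕ) : ∃ r ≤ q, ∃ (l : ℕ) (u : Finset ℕ), k ≤ l ∧
    (∀ m < k, (m ∈ u ↔ m ∈ s)) ∧ Forces r fun U => ∀ z, Mod.mem z (cN.val U) → Agr 0 l u U z →
      ¬ Mod.mem z (N.val U) := by
  obtain ⟨y, hy⟩ := Forces.exists_name (Forces.of_forall
    (fun U => h U _ (finName_mem s U) _ (natName_mem_omega k U)) q)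
  obtain ⟨l, hl⟩ := Forces.exists_name (hy.imp fun U h => h.2)
  obtain ⟨r1, h1, n, h2⟩ := decide_nat (hl.imp fun U h => h.1)
  obtain ⟨r2, h3, u, h4⟩ := decide_agr y r1 (max k n)
  refine ⟨r2, h3.trans h1, max k n, u, le_max_left _ _, fun m hm => ?_, fun U hU z hz hz' => ?_⟩
  · obtain ⟨U, hU⟩ := exists_gen r2
    rw [← h4 U hU m (hm.trans_le (le_max_left _ _)) (Nat.zero_le _),
      ← agreeTo_iff.1 (hl.mono (h3.trans h1) U hU).2.1 m hm, bit_finName]
  · refine (hl.mono (h3.trans h1) U hU).2.2 z hz ?_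
    rw [h2.mono h3 U hU, agreeTo_iff]
    intro m hm
    rw [h4 U hU m (hm.trans_le (le_max_right _ _)) (Nat.zero_le _),
      hz' m (hm.trans_le (le_max_right _ _)) (Nat.zero_le _)]

/-- the pattern `v.2` on `[a, v.1)` avoids the first `a + 1` nowhere dense sets -/
def Works (N : ℕ → Name P) (q : P) (a : ℕ) (v : ℕ × Finset ℕ) : Prop :=
  Forces q fun U => ∀ z, Mod.mem z (cN.val U) → Agr a v.1 v.2 U z →
    ∀ n < a + 1, ¬ Mod.mem z ((N n).val U)

theorem works_dense {N : ℕ → Name P} (h : ∀ n U, Nwd Mod.mem (wN.val U) (cN.val U) ((N n).val U))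
    (q : P) (a : ℕ) : ∃ r ≤ q, ∃ v, Works N r a v := by
  have key : ∀ L : Finset (Finset ℕ × ℕ), ∃ r ≤ q, ∃ b u, a ≤ b ∧ ∀ x ∈ L, Forces r fun U =>
      ∀ z, Mod.mem z (cN.val U) → Agr 0 a x.1 U z → Agr a b u U z →
        ¬ Mod.mem z ((N x.2).val U) := by
    intro L
    induction L using Finset.induction_on with
    | empty => exact ⟨q, le_rfl, a, ∅, le_rfl, fun _ h => absurd h (Finset.notMem_empty _)⟩
    | insert x L _ ih =>
      obtain ⟨r, h1, b, u, h2, h3⟩ := ih
      obtain ⟨r', g1, l, u', g2, g3, g4⟩ := nwd_elim (h x.2) r b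
        (x.1.filter (· < a) ∪ u.filter (a ≤ ·))
      refine ⟨r', g1.trans h1, l, u', h2.trans g2, fun y hy => ?_⟩
      rcases Finset.mem_insert.1 hy with rfl | hy
      · refine g4.imp fun U g z z1 z2 z3 => g z z1 fun m hm _ => ?_
        rcases lt_or_ge m a with hma | hma
        · rw [z2 m hma (Nat.zero_le _), g3 m (hma.trans_le h2)]
          simp [hma, hma.not_ge]
        · exact z3 m hm hma
      · refine ((h3 y hy).mono g1).imp fun U g z z1 z2 z3 => g z z1 z2 fun m hm hma => ?_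
        rw [z3 m (hm.trans_le g2) hma, g3 m hm]
        simp [hma, hma.not_gt]
  obtain ⟨r, h1, b, u, -, h3⟩ := key ((Finset.range a).powerset ×ˢ Finset.range (a + 1))
  refine ⟨r, h1, (b, u), forces_forall fun z => Forces.of_dn fun r1 h4 => ?_⟩
  obtain ⟨r2, h5, s, h6⟩ := decide_agr z r1 a
  refine ⟨r2, h5, fun U hU z1 z2 n hn => h3 (s.filter (· < a), n) ?_ U
    (Filter.mem_of_superset hU (Set.Iic_subset_Iic.2 (h5.trans h4))) _ z1 (fun m hm h0 => ?_) z2⟩
  · simp only [Finset.mem_product, Finset.mem_powerset, Finset.mem_range]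
    exact ⟨fun m hm => Finset.mem_range.2 (Finset.mem_filter.1 hm).2, hn⟩
  · rw [h6 U hU m hm h0]
    simp [hm]

theorem meager_of {N : ℕ → Name P} (h : ∀ n U, Nwd Mod.mem (wN.val U) (cN.val U) ((N n).val U))
    {S : Name P} {p : P} (h1 : Forces p fun U => IsSub Mod.mem (S.val U) (cN.val U))
    (h2 : ∀ z : Name P, ∀ q ≤ p, (Forces q fun U => Mod.mem (z.val U) (S.val U)) →
      ∃ r ≤ q, ∃ k, Forces r fun U => Mod.mem (z.val U) ((N k).val U)) :
    Forces p fun U => Meager Mod.mem (wN.val U) (cN.val U) (S.val U) := by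
  have h3 : Forces p fun U => LeCard Mod.mem ((fam N).val U) (wN.val U) :=
    forces_leCard N natName (fun x q _ hx => hx.exists_fam)
      (fun n => Forces.of_forall (natName_mem_omega n) p) fun i j hne q _ h => hne h.natName_inj
  have h4 : Forces p fun U => ∀ z, Mod.mem z (S.val U) →
      ∃ M, Mod.mem M ((fam N).val U) ∧ Mod.mem z M :=
    forces_forall fun z => forces_imp fun q hq hz => by
      obtain ⟨r, hr, k, hk⟩ := h2 z q hq hz
      exact ⟨r, hr, hk.imp fun U hk => ⟨_, mem_fam N k U, hk⟩⟩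
  exact fun U hU => ⟨h1 U hU, _, h3 U hU,
    forall_mem_fam (Φ := fun U M => Nwd Mod.mem (wN.val U) (cN.val U) M) h U, h4 U hU⟩

theorem meager_code (A : Name P) : ∃ N : ℕ → Name P,
    (∀ n U, Nwd Mod.mem (wN.val U) (cN.val U) ((N n).val U)) ∧ ∀ (z : Name P) (q : P),
      (Forces q fun U => Meager Mod.mem (wN.val U) (cN.val U) (A.val U) ∧
        Mod.mem (z.val U) (A.val U)) →
      ∃ r ≤ q, ∃ n, Forces r fun U => Mod.mem (z.val U) ((N n).val U) := by
  obtain ⟨F, hF⟩ := max_principle fun (U : Gen P) F => LeCard Mod.mem F (wN.val U) ∧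
    (∀ N, Mod.mem N F → Nwd Mod.mem (wN.val U) (cN.val U) N) ∧
    ∀ z, Mod.mem z (A.val U) → ∃ N, Mod.mem N F ∧ Mod.mem z N
  obtain ⟨j, hj⟩ := max_principle fun (U : Gen P) j => IsInj Mod.mem j (F.val U) (wN.val U)
  choose N hN using fun n : ℕ => max_principle fun (U : Gen P) x =>
    Nwd Mod.mem (wN.val U) (cN.val U) x ∧ ∀ y, Nwd Mod.mem (wN.val U) (cN.val U) y →
      App Mod.mem (j.val U) y ((natName n).val U) →
      IsInj Mod.mem (j.val U) (F.val U) (wN.val U) → y = x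
  have h1 := fun n U => hN n U (by
    by_cases h : ∃ y, Nwd Mod.mem (wN.val U) (cN.val U) y ∧
      App Mod.mem (j.val U) y ((natName n).val U)
    · obtain ⟨y, g1, g2⟩ := h
      exact ⟨y, g1, fun y' _ g3 g4 => g4.2 _ _ _ g3 g2⟩
    · refine ⟨(natName 0).val U, fun x hx k hk => ⟨x, hx, k, hk, fun _ _ => Iff.rfl,
        fun z _ _ => by simp [mem_natName]⟩, fun y g1 g2 => absurd ⟨y, g1, g2⟩ h⟩)
  refine ⟨N, fun n U => (h1 n U).1, fun z q hq => ?_⟩
  have h2 := hq.imp fun U h => hF U h.1.2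
  have h3 := h2.imp fun U h => hj U h.1
  obtain ⟨M, hM⟩ := Forces.exists_name ((hq.and h2).imp fun U h => h.2.2.2 _ h.1.2)
  obtain ⟨v, hv⟩ := Forces.exists_name ((hM.and h3).imp fun U h => h.2.1.2.1 _ h.1.1)
  obtain ⟨r, hr, n, hn⟩ := decide_nat ((hv.and h3).imp fun U h => ((isZFC U).app_val h.2.1 h.1).2)
  refine ⟨r, hr, n, fun U hU => ?_⟩
  have g1 := fapp hM hr hU
  have g2 := (h1 n U).2 _ ((fapp h2 hr hU).2.1 _ g1.1) (fapp hn le_rfl hU ▸ fapp hv hr hU)
    (fapp h3 hr hU)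
  rw [g2] at g1
  exact g1.2

theorem meager_of_mAdd {U : Gen P} {X : Mod U} (h : MAdd Mod.mem (wN.val U) (cN.val U) X) :
    Meager Mod.mem (wN.val U) (cN.val U) X := by
  let A : Name P := upairName (natName 0) (natName 0)
  have hA : ∀ (U : Gen P) z, Mod.mem z (A.val U) ↔ z = (natName 0).val U := fun U z => by
    rw [mem_upairName, or_self]
  have h0 : ∀ (U : Gen P) z, ¬ Mod.mem z ((natName 0).val U) := fun U z => by simp [mem_natName]
  have h1 : ∀ U, Nwd Mod.mem (wN.val U) (cN.val U) (A.val U) := nwd_of fun q k s =>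
    ⟨q, le_rfl, k + 1, insert k s, fun m hm => by simp [hm.ne], Forces.of_forall (fun U z _ z2 z3 =>
      h0 U _ ((hA U z).1 z3 ▸ (z2 k (Nat.lt_succ_self k) (Nat.zero_le _)).2
        (Finset.mem_insert_self _ _))) q⟩
  have h2 : Meager Mod.mem (wN.val U) (cN.val U) (A.val U) :=
    of_forces_all (Φ := fun U => Meager Mod.mem (wN.val U) (cN.val U) (A.val U)) (fun p => ⟨p,
      le_rfl, meager_of (N := fun _ => A) (fun _ => h1) (Forces.of_forall (fun U z hz =>
        mem_cN.2 fun y hy => absurd ((hA U z).1 hz ▸ hy) (h0 U y)) p)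
        fun z q _ hz => ⟨q, le_rfl, 0, hz⟩⟩) U
  refine h.2 _ h2 X fun z => ⟨fun hz => ⟨h.1 z hz, z, hz, _, (hA U _).2 rfl,
    fun m _ => by simp [h0]⟩, ?_⟩
  rintro ⟨z1, x, x1, a, a1, a2⟩
  rw [(hA U a).1 a1] at a2
  have : z = x := Mod.ext _ _ fun m => ⟨fun hm => by simpa [h0, hm] using a2 m (mem_cN.1 z1 m hm),
    fun hm => by simpa [h0, hm] using a2 m (mem_cN.1 (h.1 x x1) m hm)⟩
  exact this ▸ x1

end Pool.Agent.P.MP_0c5c88_lc
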