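import Mathlib

set_option autoImplicit false

/-! Index types and raw conditions of the matrix iteration. -/

open Cardinal

namespace Pool.Agent.P.MP_0c5c88_lc

/-- a well order of type `κ + 1` -/
def Lv (κ : Cardinal.{0}) : Type := WithTop κ.ord.ToType

noncomputable instance (κ : Cardinal.{0}) : LinearOrder (Lv κ) :=
  inferInstanceAs (LinearOrder (WithTop κ.ord.ToType))

instance (κ : Cardinal.{0}) : OrderTop (Lv κ) :=
  inferInstanceAs (OrderTop (WithTop κ.ord.ToType))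

instance (κ : Cardinal.{0}) : WellFoundedLT (Lv κ) :=
  (WithTop.instWellFoundedLT : WellFoundedLT (WithTop κ.ord.ToType))

instance (κ : Cardinal.{0}) : Nonempty (Lv κ) := ⟨⊤⟩

noncomputable instance (κ : Cardinal.{0}) : OrderBot (Lv κ) := WellFoundedLT.toOrderBot _

theorem mk_Lv_le {κ : Cardinal.{0}} (h : ℵ₀ ≤ κ) : #(Lv κ) ≤ κ := by
  have : #(Lv κ) = κ + 1 := by
    show #(Option κ.ord.ToType) = _
    simp
  rw [this, add_one_eq h]

theorem Lv.bound {κ : Cardinal.{0}} (h : κ.IsRegular) (T : Set (Lv κ)) (hT : #T < κ) :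
    ∃ a : Lv κ, ⊥ < a ∧ a < ⊤ ∧ ∀ x ∈ T, x < ⊤ → x < a := by
  have hne : Nonempty κ.ord.ToType := by
    rw [← mk_ne_zero_iff, mk_ord_toType]
    exact h.ne_zero
  have := Cardinal.noMaxOrder h.aleph0_le
  let s : Set κ.ord.ToType := {y | (y : WithTop κ.ord.ToType) ∈ T}
  have h1 : #s ≤ #T := mk_le_of_injective (f := fun y => (⟨_, y.2⟩ : T))
    fun a b hab => Subtype.ext (WithTop.coe_injective (congrArg Subtype.val hab))
  have h2 : ¬ IsCofinal s := fun hs => by
    have := Order.cof_le hs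
    rw [Ordinal.cof_toType, h.cof_ord] at this
    exact absurd (this.trans h1) hT.not_ge
  rw [not_isCofinal_iff] at h2
  obtain ⟨x, hx⟩ := h2
  obtain ⟨y, hy⟩ := exists_gt x
  refine ⟨(y : WithTop κ.ord.ToType), lt_of_le_of_lt (@bot_le (Lv κ) _ _ (x : WithTop κ.ord.ToType))
    (WithTop.coe_lt_coe.2 hy), WithTop.coe_lt_top y, fun z hz hz' => ?_⟩
  obtain ⟨z, rfl⟩ := WithTop.ne_top_iff_exists.1 hz'.ne
  exact WithTop.coe_lt_coe.2 ((hx z hz).trans hy)

/-- the cardinals used -/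
noncomputable def k2 : Cardinal.{0} := Order.succ ℵ₁
/-- the cardinals used -/
noncomputable def k3 : Cardinal.{0} := Order.succ k2
/-- the cardinals used -/
noncomputable def k4 : Cardinal.{0} := 2 ^ k3

theorem k1_lt : ℵ₁ < k2 := Order.lt_succ _
theorem k2_lt : k2 < k3 := Order.lt_succ _
theorem k3_lt : k3 < k4 := cantor _
theorem k2_inf : ℵ₀ ≤ k2 := aleph0_lt_aleph_one.le.trans k1_lt.le
theorem k3_inf : ℵ₀ ≤ k3 := k2_inf.trans k2_lt.le
theorem k4_inf : ℵ₀ ≤ k4 := k3_inf.trans k3_lt.le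

/-- rows -/
abbrev Row : Type := Lv k2
/-- rounds -/
abbrev Rnd : Type := Lv k3
/-- indices of the generic meager-additive sets -/
def Z : Type := k4.out
/-- codes of names -/
abbrev Lam : Type := Set k3.out

theorem mk_Z : #Z = k4 := mk_out _

theorem mk_Lam : #Lam = k4 := by rw [mk_set, mk_out, k4]

instance : Nonempty k3.out := by
  rw [← mk_ne_zero_iff, mk_out]
  exact (aleph0_pos.trans_le k3_inf).ne'

instance : Infinite Z := by
  rw [← aleph0_le_mk_iff, mk_Z]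
  exact k4_inf

theorem Row.bound (T : Set Row) (hT : #T ≤ ℵ₁) :
    ∃ a : Row, ⊥ < a ∧ a < ⊤ ∧ ∀ x ∈ T, x < ⊤ → x < a :=
  Lv.bound (isRegular_succ aleph0_lt_aleph_one.le) T (hT.trans_lt k1_lt)

theorem Rnd.bound (T : Set Rnd) (hT : #T ≤ k2) :
    ∃ a : Rnd, ⊥ < a ∧ a < ⊤ ∧ ∀ x ∈ T, x < ⊤ → x < a :=
  Lv.bound (isRegular_succ k2_inf) T (hT.trans_lt k2_lt)

/-- coordinates of the matrix -/
@[ext] structure Co : Type where
  /-- round -/
  rnd : Rnd
  /-- row -/
  row : Row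
  /-- index of the generic set -/
  z : Z
  /-- code of the task -/
  lam : Lam

/-- values of names -/
abbrev V : Type := ℕ × Finset ℕ

/-- values of a condition at a coordinate -/
@[ext] structure Y : Type where
  /-- length of the stem -/
  t : ℕ
  /-- the stem -/
  y : Finset ℕ
  /-- the blocks -/
  E : Finset (ℕ × ℕ)
  /-- promised names -/
  F0 : Finset Lam
  /-- promised rows -/
  F1 : Finset Row

instance : Zero Y := ⟨⟨0, ∅, ∅, ∅, ∅⟩⟩

@[simp] theorem zero_t : (0 : Y).t = 0 := rfl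
@[simp] theorem zero_y : (0 : Y).y = ∅ := rfl
@[simp] theorem zero_E : (0 : Y).E = ∅ := rfl
@[simp] theorem zero_F0 : (0 : Y).F0 = ∅ := rfl
@[simp] theorem zero_F1 : (0 : Y).F1 = ∅ := rfl

/-- raw conditions -/
abbrev C : Type := Co →₀ Y

theorem exists_nm : ∃ nm : Lam → Set (C × ℕ × V), ∀ S : Set (C × ℕ × V), S.Countable →
    ∃ l, nm l = S := by
  have hθ : #Lam = 2 ^ k3 := mk_Lam
  have h4 : k4 ≤ #Lam := mk_Lam.ge
  have hinf : ℵ₀ ≤ #Lam := k4_inf.trans h4
  have hRow : #Row ≤ #Lam := (mk_Lv_le k2_inf).trans (k2_lt.le.trans (k3_lt.le.trans h4))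
  have hRnd : #Rnd ≤ #Lam := (mk_Lv_le k3_inf).trans (k3_lt.le.trans h4)
  have hp : ∀ {A B : Type}, #A ≤ #Lam → #B ≤ #Lam → #(A × B) ≤ #Lam := fun h1 h2 => by
    rw [mk_prod, lift_id, lift_id]
    exact (mul_le_mul' h1 h2).trans (mul_eq_self hinf).le
  have hc : ∀ {A : Type} [Countable A], #A ≤ #Lam := mk_le_aleph0.trans hinf
  have hf : ∀ {A : Type}, #A ≤ #Lam → #(Finset A) ≤ #Lam := fun {A} h => by
    cases finite_or_infinite A with
    | inl _ => exact hc
    | inr _ => rwa [mk_finset_of_infinite]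
  have hCo : #Co ≤ #Lam := (mk_le_of_injective (f := fun d : Co => (d.rnd, d.row, d.z, d.lam))
    fun a b h => by simp only [Prod.mk.injEq] at h; exact Co.ext h.1 h.2.1 h.2.2.1 h.2.2.2).trans
    (hp hRnd (hp hRow (hp (mk_Z.le.trans h4) le_rfl)))
  have hY : #Y ≤ #Lam := (mk_le_of_injective (f := fun a : Y => (a.t, a.y, a.E, a.F0, a.F1))
    fun a b h => by
      simp only [Prod.mk.injEq] at h
      exact Y.ext h.1 h.2.1 h.2.2.1 h.2.2.2.1 h.2.2.2.2).trans
    (hp hc (hp hc (hp hc (hp (hf le_rfl) (hf hRow)))))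
  have : Infinite Co := Infinite.of_injective (fun z : Z => (⟨⊥, ⊥, z, ∅⟩ : Co))
    fun a b h => congrArg Co.z h
  have : Nontrivial Y := ⟨0, ⟨1, ∅, ∅, ∅, ∅⟩, fun h => absurd (congrArg Y.t h) (by simp)⟩
  have hC : #C ≤ #Lam := by
    rw [mk_finsupp_of_infinite]
    exact max_le hCo hY
  have hX : #(C × ℕ × V) ≤ #Lam := hp hC hc
  have h1 : #{t : Set (C × ℕ × V) // #t ≤ ℵ₀} ≤ #Lam := by
    refine (mk_bounded_set_le _ _).trans ((power_le_power_right (max_le hX hinf)).trans ?_)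
    rw [hθ, ← power_mul, mul_eq_left k3_inf k3_inf aleph0_ne_zero]
  obtain ⟨e⟩ := (Cardinal.le_def _ _).1 h1
  have : Nonempty {t : Set (C × ℕ × V) // #t ≤ ℵ₀} := ⟨⟨∅, by simp⟩⟩
  refine ⟨fun l => (Function.invFun e l).1, fun S hS => ⟨e ⟨S, le_aleph0_iff_set_countable.2 hS⟩, ?_⟩⟩
  simp only [Function.leftInverse_invFun e.injective _]

/-- decoding of codes of names -/
noncomputable def nm : Lam → Set (C × ℕ × V) := exists_nm.choose

theorem nm_surj {S : Set (C × ℕ × V)} (h : S.Countable) : ∃ l, nm l = S :=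
  exists_nm.choose_spec S h

end Pool.Agent.P.MP_0c5c88_lc
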