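import Pool.Agent.P.MP_0c5c88_lc.Main

set_option autoImplicit false

open Pool.Agent.Lib.PosetForcing Pool.Agent.P.MP_0c5c88_lc

namespace Pool.Agent.P.MP_0c5c88_lc.VariantConsistent

theorem result :
    ∃ (M : Type 1) (mem : M → M → Prop), IsZFC mem ∧
      ∃ w C : M, IsOmega mem w ∧ IsPow mem C w ∧
        ∃ a n c f : M, IsLeastSize mem (AddW mem w C) a ∧ IsLeastSize mem (NonW mem w C) n ∧
          IsLeastSize mem (CovW mem w C) c ∧ IsLeastSize mem (CofW mem w C) f ∧
          LtCard mem a n ∧ LtCard mem n c ∧ LtCard mem c f := by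
  obtain ⟨U, -⟩ := exists_gen (⊤ : PP)
  exact ⟨Mod U, Mod.mem, isZFC U, wN.val U, cN.val U, isOmega_omega U, isPow_powName _ U, main U⟩

end Pool.Agent.P.MP_0c5c88_lc.VariantConsistent
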